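import Pool.Agent.W_93b186_h29.Small

/-!
# Capped parallelograms
-/

set_option autoImplicit false

namespace SympB

/-- The polygon is a parallelogram with a cap: four consecutive vertices `v i, v (i+1), v (i+2),
v (i+3)` form a parallelogram and `v (i+4)`, `v (i-1)` are equal or span a segment parallel to the
side from `v (i+1)` to `v (i+2)`. -/
def CappedParallelogram {n : ℕ} (v : ZMod n → ℝ × ℝ) : Prop :=
  ∃ i : ZMod n, v i + v (i + 2) = v (i + 1) + v (i + 3) ∧
    cross (v (i + 2) - v (i + 1)) (v (i - 1) - v (i + 4)) = 0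

theorem capped_polygons (n : ℕ) (hn : n ≤ 6) (v : ZMod n → ℝ × ℝ) (hv : IsConvexPolygon v)
    (h : CappedParallelogram v) : AP v := by
  obtain ⟨i, h1, h2⟩ := h
  have h3 := hv.1
  have hn' : n = 3 ∨ n = 4 ∨ n = 5 ∨ n = 6 := by omega
  rcases hn' with rfl | rfl | rfl | rfl
  · exact ap_triangle v hv
  · refine ap_parallelogram hv ?_
    have key : v 0 + v 2 = v 1 + v 3 := by
      rcases zmod4 i with rfl | rfl | rfl | rfl
      · exact h1
      · have h1' : v 1 + v 3 = v 2 + v 0 := h1
        rw [h1', add_comm]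
      · have h1' : v 2 + v 0 = v 3 + v 1 := h1
        rw [add_comm, h1', add_comm]
      · have h1' : v 3 + v 1 = v 0 + v 2 := h1
        rw [← h1', add_comm]
    have : v 2 - v 1 - (v 3 - v 0) = 0 := by
      have : v 2 - v 1 - (v 3 - v 0) = (v 0 + v 2) - (v 1 + v 3) := by abel
      rw [this, key, sub_self]
    exact sub_eq_zero.1 this
  · exact capped_pentagons v hv ⟨i, h1⟩
  · refine capped_hexagons v hv ⟨i, h1, ?_⟩
    have e : ∀ i : ZMod 6, i - 1 = i + 5 := by decide
    rw [e] at h2
    exact h2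

end SympB
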