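import Pool.Agent.W_MP_93b186_an_helper62.Final

/-!
# Symplectic billiards in convex polygons: general facts

Forward and backward determinism, orientation, time reversal.
-/

set_option autoImplicit false

namespace SympB

variable {n : ℕ} {v : ZMod n → ℝ × ℝ}

theorem IsConvexPolygon.one_ne (hv : IsConvexPolygon v) : (1 : ZMod n) ≠ 0 := by
  have : Fact (1 < n) := ⟨by have := hv.1; omega⟩
  exact one_ne_zero

theorem IsConvexPolygon.two_ne (hv : IsConvexPolygon v) : (2 : ZMod n) ≠ 0 := by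
  intro h
  have h' : ((2 : ℕ) : ZMod n) = 0 := by exact_mod_cast h
  rw [ZMod.natCast_eq_zero_iff] at h'
  have := Nat.le_of_dvd (by norm_num) h'
  have := hv.1
  omega

theorem cross_sub_right (u w w' : ℝ × ℝ) : cross u (w - w') = cross u w - cross u w' := by
  simp [cross]; ring

theorem IsConvexPolygon.vert_nonneg (hv : IsConvexPolygon v) (i j : ZMod n) :
    0 ≤ cross (v (i + 1) - v i) (v j - v i) := by
  by_cases h1 : j = i
  · subst h1; simp [cross]
  · by_cases h2 : j = i + 1
    · subst h2; rw [cross_self]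
    · exact (hv.2 i j h1 h2).le

theorem IsConvexPolygon.vert_zero (hv : IsConvexPolygon v) {i j : ZMod n}
    (h : cross (v (i + 1) - v i) (v j - v i) = 0) : j = i ∨ j = i + 1 := by
  by_contra hc
  push Not at hc
  have := hv.2 i j hc.1 hc.2
  linarith

theorem cross_seg {a b : ℝ × ℝ} (u c : ℝ × ℝ) (t : ℝ) :
    cross u (a + t • (b - a) - c) = (1 - t) * cross u (a - c) + t * cross u (b - c) := by
  simp [cross]; ring

theorem IsConvexPolygon.bdry_nonneg (hv : IsConvexPolygon v) (i : ZMod n) {z : ℝ × ℝ}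
    (hz : z ∈ bdry v) : 0 ≤ cross (v (i + 1) - v i) (z - v i) := by
  obtain ⟨j, hj⟩ := Set.mem_iUnion.1 hz
  rw [segment_eq_image'] at hj
  obtain ⟨t, ⟨h0, h1⟩, rfl⟩ := hj
  simp only
  rw [cross_seg]
  have a1 := hv.vert_nonneg i j
  have a2 := hv.vert_nonneg i (j + 1)
  have := mul_nonneg (sub_nonneg.2 h1) a1
  have := mul_nonneg h0 a2
  linarith

theorem open_bdry {i : ZMod n} {z : ℝ × ℝ} (hz : z ∈ openSegment ℝ (v i) (v (i + 1))) :
    z ∈ bdry v := Set.mem_iUnion.2 ⟨i, openSegment_subset_segment ℝ _ _ hz⟩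

theorem cross_open {i : ZMod n} {z : ℝ × ℝ} (hz : z ∈ segment ℝ (v i) (v (i + 1))) :
    cross (v (i + 1) - v i) (z - v i) = 0 := by
  rw [segment_eq_image'] at hz
  obtain ⟨t, _, rfl⟩ := hz
  simp [cross]; ring

theorem IsConvexPolygon.open_unique (hv : IsConvexPolygon v) {i j : ZMod n} {y : ℝ × ℝ}
    (hi : y ∈ openSegment ℝ (v i) (v (i + 1))) (hj : y ∈ openSegment ℝ (v j) (v (j + 1))) : i = j := by
  by_contra hne
  have h := cross_open (openSegment_subset_segment ℝ _ _ hi)
  rw [openSegment_eq_image'] at hj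
  obtain ⟨t, ⟨h0, h1⟩, rfl⟩ := hj
  simp only at h
  rw [cross_seg] at h
  have a1 := hv.vert_nonneg i j
  have a2 := hv.vert_nonneg i (j + 1)
  have b1 := mul_nonneg (sub_nonneg.2 h1.le) a1
  have b2 := mul_nonneg h0.le a2
  have c1 : (1 - t) * cross (v (i + 1) - v i) (v j - v i) = 0 := by linarith
  have c2 : t * cross (v (i + 1) - v i) (v (j + 1) - v i) = 0 := by linarith
  have d1 : cross (v (i + 1) - v i) (v j - v i) = 0 := by
    rcases mul_eq_zero.1 c1 with h | h
    · linarith
    · exact h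
  have d2 : cross (v (i + 1) - v i) (v (j + 1) - v i) = 0 := by
    rcases mul_eq_zero.1 c2 with h | h
    · linarith
    · exact h
  have e1 : j = i + 1 := by
    rcases hv.vert_zero d1 with h | h
    · exact absurd h.symm hne
    · exact h
  subst e1
  rcases hv.vert_zero d2 with h | h
  · apply hv.two_ne
    have : i + 1 + 1 - i = 2 := by ring
    rw [h, sub_self] at this
    exact this.symm
  · apply hv.one_ne
    have : i + 1 + 1 - (i + 1) = 1 := by ring
    rw [h, sub_self] at this
    exact this.symm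

theorem IsConvexPolygon.side_ne (hv : IsConvexPolygon v) (i : ZMod n) : v i ≠ v (i + 1) := by
  intro h
  have h1 : i + 2 ≠ i := by
    intro h; exact hv.two_ne (by simpa using h)
  have h2 : i + 2 ≠ i + 1 := by
    intro h
    apply hv.one_ne
    have : i + 2 - (i + 1) = 1 := by ring
    rw [h, sub_self] at this
    exact this.symm
  have := hv.2 i (i + 2) h1 h2
  rw [← h, sub_self] at this
  simp [cross] at this

theorem open_ne_left (hv : IsConvexPolygon v) {i : ZMod n} {z : ℝ × ℝ}
    (hz : z ∈ openSegment ℝ (v i) (v (i + 1))) : v i ≠ z := by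
  rintro rfl
  exact hv.side_ne i (left_mem_openSegment_iff.1 hz)

theorem open_ne_right (hv : IsConvexPolygon v) {i : ZMod n} {z : ℝ × ℝ}
    (hz : z ∈ openSegment ℝ (v i) (v (i + 1))) : v (i + 1) ≠ z := by
  rintro rfl
  exact hv.side_ne i (right_mem_openSegment_iff.1 hz)

/-- the step relation is symmetric under time reversal -/
theorem Step.symm (hv : IsConvexPolygon v) {x y z : ℝ × ℝ} (h : Step v x y z) : Step v z y x := by
  obtain ⟨i, hy, hx, hxs, hne, hset⟩ := h
  have hz : z ∈ {w : ℝ × ℝ | w ∈ bdry v ∧ cross (v (i + 1) - v i) (w - x) = 0} := by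
    rw [hset]; exact Or.inr rfl
  have hc := hz.2
  refine ⟨i, hy, hz.1, ?_, hne.symm, ?_⟩
  · intro hzs
    have h1 := cross_open hzs
    have h2 : cross (v (i + 1) - v i) (v i - x) = 0 := by
      have : v i - x = (z - x) - (z - v i) := by abel
      rw [this, cross_sub_right, hc, h1, sub_zero]
    have h3 : cross (v (i + 1) - v i) (v (i + 1) - x) = 0 := by
      have : v (i + 1) - x = (v (i + 1) - v i) + (v i - x) := by abel
      rw [this, cross_add_right, cross_self, h2, add_zero]
    have m1 : v i ∈ ({x, z} : Set (ℝ × ℝ)) := by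
      rw [← hset]; exact ⟨Set.mem_iUnion.2 ⟨i, left_mem_segment ℝ _ _⟩, h2⟩
    have m2 : v (i + 1) ∈ ({x, z} : Set (ℝ × ℝ)) := by
      rw [← hset]; exact ⟨Set.mem_iUnion.2 ⟨i, right_mem_segment ℝ _ _⟩, h3⟩
    have n1 : v i ≠ x := by rintro rfl; exact hxs (left_mem_segment ℝ _ _)
    have n2 : v (i + 1) ≠ x := by rintro rfl; exact hxs (right_mem_segment ℝ _ _)
    have e1 : v i = z := by
      rcases m1 with h | h
      · exact absurd h n1
      · exact h
    have e2 : v (i + 1) = z := by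
      rcases m2 with h | h
      · exact absurd h n2
      · exact h
    exact hv.side_ne i (e1.trans e2.symm)
  · rw [Set.pair_comm, ← hset]
    ext w
    simp only [Set.mem_ofPred_eq]
    refine and_congr_right fun _ => ?_
    have : w - z = (w - x) - (z - x) := by abel
    rw [this, cross_sub_right, hc, sub_zero]

theorem Step.det (hv : IsConvexPolygon v) {x y z z' : ℝ × ℝ} (h : Step v x y z) (h' : Step v x y z') :
    z = z' := by
  obtain ⟨i, hy, hx, hxs, hne, hset⟩ := h
  obtain ⟨i', hy', hx', hxs', hne', hset'⟩ := h'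
  have := hv.open_unique hy hy'
  subst this
  have hz : z' ∈ ({x, z} : Set (ℝ × ℝ)) := by
    rw [← hset, hset']; exact Or.inr rfl
  rcases hz with h | h
  · exact absurd h hne'
  · exact h.symm

section orbit
variable {x : ℤ → ℝ × ℝ}

theorem IsOrbit.side (hx : IsOrbit v x) (m : ℤ) : ∃ i, x m ∈ openSegment ℝ (v i) (v (i + 1)) := by
  obtain ⟨i, hi, _⟩ := hx (m - 1)
  rw [sub_add_cancel] at hi
  exact ⟨i, hi⟩

theorem IsOrbit.next (hv : IsConvexPolygon v) (hx : IsOrbit v x) {m : ℤ} {j : ZMod n}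
    (hj : x (m + 1) ∈ openSegment ℝ (v j) (v (j + 1))) {z : ℝ × ℝ} (hz : z ∈ bdry v)
    (hc : cross (v (j + 1) - v j) (z - x m) = 0) (hne : z ≠ x m) : x (m + 2) = z := by
  obtain ⟨i, hy, _, _, _, hset⟩ := hx m
  have := hv.open_unique hy hj
  subst this
  have hz' : z ∈ ({x m, x (m + 2)} : Set (ℝ × ℝ)) := by
    rw [← hset]; exact ⟨hz, hc⟩
  rcases hz' with h | h
  · exact absurd h hne
  · exact h.symm

theorem IsOrbit.chord (hv : IsConvexPolygon v) (hx : IsOrbit v x) {m : ℤ} {j : ZMod n}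
    (hj : x (m + 1) ∈ openSegment ℝ (v j) (v (j + 1))) :
    cross (v (j + 1) - v j) (x (m + 2) - x m) = 0 ∧ x (m + 2) ≠ x m := by
  obtain ⟨i, hy, _, _, hne, hset⟩ := hx m
  have := hv.open_unique hy hj
  subst this
  have hz' : x (m + 2) ∈ {w : ℝ × ℝ | w ∈ bdry v ∧ cross (v (i + 1) - v i) (w - x m) = 0} := by
    rw [hset]; exact Or.inr rfl
  exact ⟨hz'.2, hne⟩

theorem IsOrbit.ncross (hv : IsConvexPolygon v) (hx : IsOrbit v x) {m : ℤ} {i j : ZMod n}
    (hi : x m ∈ openSegment ℝ (v i) (v (i + 1))) (hj : x (m + 1) ∈ openSegment ℝ (v j) (v (j + 1))) :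
    cross (v (i + 1) - v i) (v (j + 1) - v j) ≠ 0 := by
  intro h
  obtain ⟨i', hy, _, _, hne, hset⟩ := hx m
  have := hv.open_unique hy hj
  subst this
  rw [openSegment_eq_image'] at hi
  obtain ⟨t, ht, hi'⟩ := hi
  have hi : x m ∈ openSegment ℝ (v i) (v (i + 1)) := by
    rw [openSegment_eq_image']; exact ⟨t, ht, hi'⟩
  have m1 : v i ∈ ({x m, x (m + 2)} : Set (ℝ × ℝ)) := by
    rw [← hset]
    refine ⟨Set.mem_iUnion.2 ⟨i, left_mem_segment ℝ _ _⟩, ?_⟩
    have : v i - x m = (-t) • (v (i + 1) - v i) := by rw [← hi']; module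
    rw [this, cross_smul_right, cross_comm, h]; ring
  have m2 : v (i + 1) ∈ ({x m, x (m + 2)} : Set (ℝ × ℝ)) := by
    rw [← hset]
    refine ⟨Set.mem_iUnion.2 ⟨i, right_mem_segment ℝ _ _⟩, ?_⟩
    have : v (i + 1) - x m = (1 - t) • (v (i + 1) - v i) := by rw [← hi']; module
    rw [this, cross_smul_right, cross_comm, h]; ring
  have e1 : v i = x (m + 2) := by
    rcases m1 with h | h
    · exact absurd h (open_ne_left hv hi)
    · exact h
  have e2 : v (i + 1) = x (m + 2) := by
    rcases m2 with h | h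
    · exact absurd h (open_ne_right hv hi)
    · exact h
  exact hv.side_ne i (e1.trans e2.symm)

theorem exists_smul_of_cross {d u : ℝ × ℝ} (hd : d ≠ 0) (h : cross d u = 0) : ∃ c : ℝ, u = c • d := by
  obtain ⟨d1, d2⟩ := d
  obtain ⟨u1, u2⟩ := u
  simp only [cross] at h
  by_cases h1 : d1 = 0
  · have h2 : d2 ≠ 0 := by
      rintro rfl; exact hd (by rw [h1]; rfl)
    refine ⟨u2 / d2, ?_⟩
    subst h1
    have : u1 = 0 := by
      have : d2 * u1 = 0 := by linarith
      exact (mul_eq_zero.1 this).resolve_left h2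
    subst this
    apply Prod.ext
    · simp
    · simp; field_simp
  · refine ⟨u1 / d1, ?_⟩
    apply Prod.ext
    · simp; field_simp
    · simp; field_simp; linarith

/-- the chord goes to the left of the first side -/
theorem IsOrbit.pos (hv : IsConvexPolygon v) (hx : IsOrbit v x) {m : ℤ} {i j k : ZMod n}
    (hi : x m ∈ openSegment ℝ (v i) (v (i + 1))) (hj : x (m + 1) ∈ openSegment ℝ (v j) (v (j + 1)))
    (hk : x (m + 2) ∈ openSegment ℝ (v k) (v (k + 1))) :
    0 < cross (v (i + 1) - v i) (v (j + 1) - v j) ↔ 0 < cross (v (j + 1) - v j) (v (k + 1) - v k) := by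
  obtain ⟨hc, hne⟩ := hx.chord hv hj
  have hd : v (j + 1) - v j ≠ 0 := fun h => hv.side_ne j (sub_eq_zero.1 h).symm
  obtain ⟨c, hc⟩ := exists_smul_of_cross hd hc
  have hc0 : c ≠ 0 := by
    rintro rfl
    rw [zero_smul, sub_eq_zero] at hc
    exact hne hc
  have h1 : 0 ≤ c * cross (v (i + 1) - v i) (v (j + 1) - v j) := by
    have g1 := hv.bdry_nonneg i (open_bdry hk)
    have g2 := cross_open (openSegment_subset_segment ℝ _ _ hi)
    have : x (m + 2) - v i = (x (m + 2) - x m) + (x m - v i) := by abel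
    rw [this, cross_add_right, g2, add_zero, hc, cross_smul_right] at g1
    exact g1
  have h2 : 0 ≤ c * cross (v (j + 1) - v j) (v (k + 1) - v k) := by
    have g1 := hv.bdry_nonneg k (open_bdry hi)
    have g2 := cross_open (openSegment_subset_segment ℝ _ _ hk)
    have : x m - v k = (x (m + 2) - v k) - (x (m + 2) - x m) := by abel
    rw [this, cross_sub_right, g2, hc, cross_smul_right, cross_comm] at g1
    linarith
  have n1 := hx.ncross hv hi hj
  have hk' : x (m + 1 + 1) ∈ openSegment ℝ (v k) (v (k + 1)) := by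
    rw [show m + 1 + 1 = m + 2 by ring]; exact hk
  have n2 := hx.ncross hv hj hk'
  constructor
  · intro h
    have hcp : 0 < c := by
      rcases lt_or_gt_of_ne hc0 with h' | h'
      · have := mul_neg_of_neg_of_pos h' h
        linarith
      · exact h'
    rcases lt_or_gt_of_ne n2 with h' | h'
    · have := mul_neg_of_pos_of_neg hcp h'
      linarith
    · exact h'
  · intro h
    have hcp : 0 < c := by
      rcases lt_or_gt_of_ne hc0 with h' | h'
      · have := mul_neg_of_neg_of_pos h' h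
        linarith
      · exact h'
    rcases lt_or_gt_of_ne n1 with h' | h'
    · have := mul_neg_of_pos_of_neg hcp h'
      linarith
    · exact h'

theorem IsOrbit.rev (hv : IsConvexPolygon v) (hx : IsOrbit v x) : IsOrbit v (fun k => x (-k)) := by
  intro k
  have := (hx (-k - 2)).symm hv
  have e1 : -k - 2 + 2 = -k := by ring
  have e2 : -k - 2 + 1 = -(k + 1) := by ring
  have e3 : -k - 2 = -(k + 2) := by ring
  rw [e1, e2, e3] at this
  exact this

theorem IsOrbit.shift (hx : IsOrbit v x) (t : ℤ) : IsOrbit v (fun k => x (k + t)) := by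
  intro k
  have := hx (k + t)
  have e1 : k + t + 1 = k + 1 + t := by ring
  have e2 : k + t + 2 = k + 2 + t := by ring
  rw [e1, e2] at this
  exact this

theorem IsOrbit.shift_eq (hv : IsConvexPolygon v) {y : ℤ → ℝ × ℝ} (hx : IsOrbit v x) (hy : IsOrbit v y)
    {i : ℤ} (h1 : x i = y i) (h2 : x (i + 1) = y (i + 1)) : ∀ k, x k = y k ∧ x (k + 1) = y (k + 1) := by
  intro k
  induction k using Int.inductionOn' (b := i) with
  | zero => exact ⟨h1, h2⟩
  | succ k _ ih =>
    refine ⟨ih.2, ?_⟩
    have s1 := hx k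
    have s2 := hy k
    rw [ih.1, ih.2] at s1
    have := s1.det hv s2
    rwa [show k + 1 + 1 = k + 2 by ring]
  | pred k _ ih =>
    have e : k - 1 + 1 = k := by ring
    rw [e]
    refine ⟨?_, ih.1⟩
    have s1 := (hx (k - 1)).symm hv
    have s2 := (hy (k - 1)).symm hv
    have e2 : k - 1 + 2 = k + 1 := by ring
    rw [e, e2, ih.1, ih.2] at s1
    rw [e, e2] at s2
    exact s1.det hv s2

theorem IsOrbit.periodic_of (hv : IsConvexPolygon v) (hx : IsOrbit v x) {i j : ℤ} (hij : i < j)
    (h1 : x i = x j) (h2 : x (i + 1) = x (j + 1)) : ∃ m : ℕ, 1 ≤ m ∧ x m = x 0 ∧ x (m + 1) = x 1 := by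
  have key := hx.shift_eq hv (hx.shift (j - i)) (i := i)
    (by rw [h1]; congr 1; ring) (by rw [h2]; congr 1; ring) 0
  refine ⟨(j - i).toNat, by omega, ?_, ?_⟩
  · have := key.1
    rw [Int.toNat_of_nonneg (by omega)]
    rw [this]; congr 1; ring
  · have := key.2
    rw [Int.toNat_of_nonneg (by omega)]
    rw [show (1 : ℤ) = 0 + 1 by ring, this]; congr 1; ring

end orbit

/-- an orbit is positive if the directions of the sides of successive points turn to the left -/
def PosOrbit (v : ZMod n → ℝ × ℝ) (x : ℤ → ℝ × ℝ) : Prop :=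
  ∀ (m : ℤ) (i j : ZMod n), x m ∈ openSegment ℝ (v i) (v (i + 1)) →
    x (m + 1) ∈ openSegment ℝ (v j) (v (j + 1)) → 0 < cross (v (i + 1) - v i) (v (j + 1) - v j)

theorem posOrbit_of (hv : IsConvexPolygon v) {x : ℤ → ℝ × ℝ} (hx : IsOrbit v x) {m : ℤ} {i j : ZMod n}
    (hi : x m ∈ openSegment ℝ (v i) (v (i + 1))) (hj : x (m + 1) ∈ openSegment ℝ (v j) (v (j + 1)))
    (h : 0 < cross (v (i + 1) - v i) (v (j + 1) - v j)) : PosOrbit v x := by
  have key : ∀ k : ℤ, ∀ i j, x k ∈ openSegment ℝ (v i) (v (i + 1)) →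
      x (k + 1) ∈ openSegment ℝ (v j) (v (j + 1)) → 0 < cross (v (i + 1) - v i) (v (j + 1) - v j) := by
    intro k
    induction k using Int.inductionOn' (b := m) with
    | zero =>
      intro i' j' hi' hj'
      rw [hv.open_unique hi' hi, hv.open_unique hj' hj]
      exact h
    | succ k _ ih =>
      intro i' j' hi' hj'
      obtain ⟨s, hs⟩ := hx.side k
      rw [show k + 1 + 1 = k + 2 by ring] at hj'
      exact (hx.pos hv hs hi' hj').1 (ih s i' hs hi')
    | pred k _ ih =>
      intro i' j' hi' hj'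
      have e : k - 1 + 1 = k := by ring
      rw [e] at hj'
      obtain ⟨s, hs⟩ := hx.side (k + 1)
      have hj2 : x (k - 1 + 1) ∈ openSegment ℝ (v j') (v (j' + 1)) := by rw [e]; exact hj'
      have hs2 : x (k - 1 + 2) ∈ openSegment ℝ (v s) (v (s + 1)) := by
        rw [show k - 1 + 2 = k + 1 by ring]; exact hs
      exact (hx.pos hv hi' hj2 hs2).2 (ih j' s hj' hs)
  exact key

/-- It is enough to treat positive orbits. -/
theorem ap_of_pos (hv : IsConvexPolygon v)
    (h : ∀ x, IsOrbit v x → PosOrbit v x → ∃ i j : ℤ, i < j ∧ x i = x j ∧ x (i + 1) = x (j + 1)) :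
    AP v := by
  intro x hx
  obtain ⟨i, hi⟩ := hx.side 0
  obtain ⟨j, hj⟩ := hx.side (0 + 1)
  have hn := hx.ncross hv hi hj
  rcases lt_or_gt_of_ne hn with hneg | hpos
  · have hr := hx.rev hv
    have hp : PosOrbit v (fun k => x (-k)) := by
      refine posOrbit_of hv hr (m := -1) (i := j) (j := i) ?_ ?_ ?_
      · simpa using hj
      · simpa using hi
      · rw [cross_comm]; linarith
    obtain ⟨a, b, hab, h1, h2⟩ := h _ hr hp
    refine hx.periodic_of hv (i := -b - 1) (j := -a - 1) (by omega) ?_ ?_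
    · have e1 : -b - 1 = -(b + 1) := by ring
      have e2 : -a - 1 = -(a + 1) := by ring
      rw [e1, e2]; exact h2.symm
    · have e1 : -b - 1 + 1 = -b := by ring
      have e2 : -a - 1 + 1 = -a := by ring
      rw [e1, e2]; exact h1.symm
  · obtain ⟨a, b, hab, h1, h2⟩ := h x hx (posOrbit_of hv hx hi hj hpos)
    exact hx.periodic_of hv hab h1 h2

end SympB
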