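import Mathlib

/-!
# The one dimensional dynamics behind the roof polygons
-/

set_option autoImplicit false

namespace SympB

/-- the rotation -/
noncomputable def rotF (rho u : ℝ) : ℝ := Int.fract (u + rho)

theorem rotF_iter (rho u : ℝ) (m : ℕ) : ∃ z : ℤ, (rotF rho)^[m] u = u + m * rho + z := by
  induction m with
  | zero => exact ⟨0, by simp⟩
  | succ m ih =>
    obtain ⟨z, hz⟩ := ih
    refine ⟨z - ⌊u + m * rho + z + rho⌋, ?_⟩
    rw [Function.iterate_succ_apply', hz, rotF, ← Int.self_sub_floor]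
    push_cast; ring

/-- A rotation orbit which stays in `(0, w)`, `w < 1`, is periodic. -/
theorem rot_periodic (rho u w : ℝ) (hw : w < 1) (h : ∀ j, 0 < (rotF rho)^[j] u ∧ (rotF rho)^[j] u < w) :
    ∃ i j : ℕ, i < j ∧ (rotF rho)^[i] u = (rotF rho)^[j] u := by
  obtain ⟨N, hN⟩ := exists_nat_gt (1 / (1 - w))
  have h1w : 0 < 1 - w := by linarith
  have hN0 : (0 : ℝ) < N := lt_trans (by positivity) hN
  have hN1 : 1 / (N : ℝ) < 1 - w := by
    rw [div_lt_iff₀ hN0]
    rw [div_lt_iff₀ h1w] at hN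
    linarith
  set X : ℕ → ℝ := fun j => (rotF rho)^[j] u with hX
  have hmap : ∀ j ∈ Finset.range (N + 1), ⌊(N : ℝ) * X j⌋₊ ∈ Finset.range N := by
    intro j _
    rw [Finset.mem_range]
    have h2 := h j
    have : (N : ℝ) * X j < N := by
      have : X j < 1 := h2.2.trans hw
      nlinarith
    exact (Nat.floor_lt (mul_nonneg hN0.le h2.1.le)).2 this
  obtain ⟨i, hi, j, hj, hij, heq⟩ := Finset.exists_ne_map_eq_of_card_lt_of_maps_to
    (by simp) hmap
  have hclose : |X j - X i| < 1 - w := by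
    have a1 := Nat.floor_le (mul_nonneg hN0.le (h i).1.le)
    have a2 := Nat.lt_floor_add_one ((N : ℝ) * X i)
    have b1 := Nat.floor_le (mul_nonneg hN0.le (h j).1.le)
    have b2 := Nat.lt_floor_add_one ((N : ℝ) * X j)
    rw [heq] at a2
    have a1' : ((⌊(N : ℝ) * X j⌋₊ : ℕ) : ℝ) ≤ N * X i := by rw [← heq]; exact a1
    have c1 : (N : ℝ) * (X j - X i) < 1 := by linarith
    have c2 : -1 < (N : ℝ) * (X j - X i) := by linarith
    have : |(N : ℝ) * (X j - X i)| < 1 := abs_lt.2 ⟨c2, c1⟩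
    rw [abs_mul, abs_of_pos hN0] at this
    have : |X j - X i| < 1 / N := by rw [lt_div_iff₀ hN0]; linarith
    linarith
  -- wlog i < j
  have main : ∀ i j : ℕ, i < j → |X j - X i| < 1 - w → ∃ i j : ℕ, i < j ∧ X i = X j := by
    intro i j hlt hcl
    by_cases hd : X j - X i = 0
    · exact ⟨i, j, hlt, by linarith⟩
    · exfalso
      set d := X j - X i with hdd
      obtain ⟨p, rfl⟩ : ∃ p, j = i + p := ⟨j - i, by omega⟩
      obtain ⟨zi, hzi⟩ := rotF_iter rho u i
      obtain ⟨zj, hzj⟩ := rotF_iter rho u (i + p)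
      have key : ∀ n : ℕ, X (i + n * p) = X i + n * d := by
        intro n
        induction n with
        | zero => simp
        | succ n ih =>
          obtain ⟨z1, hz1⟩ := rotF_iter rho u (i + n * p)
          obtain ⟨z2, hz2⟩ := rotF_iter rho u (i + (n + 1) * p)
          have e : X (i + (n + 1) * p) - X (i + n * p) - d = ((z2 - z1 - zj + zi : ℤ) : ℝ) := by
            rw [hdd]
            simp only [hX]
            rw [hz2, hz1, hzj, hzi]
            push_cast; ring
          have b1 := h (i + (n + 1) * p)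
          have b2 := h (i + n * p)
          have hb : |X (i + (n + 1) * p) - X (i + n * p) - d| < 1 := by
            have g1 : |X (i + (n + 1) * p) - X (i + n * p)| < w := by
              rw [abs_lt]
              constructor
              · have := b1.1; have := b2.2
                simp only [hX]; linarith
              · have := b1.2; have := b2.1
                simp only [hX]; linarith
            have := abs_sub (X (i + (n + 1) * p) - X (i + n * p)) d
            linarith
          rw [e] at hb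
          have hz : (z2 - z1 - zj + zi : ℤ) = 0 := by
            rw [← Int.cast_abs] at hb
            have : |(z2 - z1 - zj + zi : ℤ)| < 1 := by exact_mod_cast hb
            exact Int.abs_lt_one_iff.1 this
          rw [hz] at e
          push_cast at e ⊢
          linarith
      obtain ⟨n, hn⟩ := exists_nat_gt (1 / |d|)
      have hd0 : 0 < |d| := abs_pos.2 hd
      rw [div_lt_iff₀ hd0] at hn
      have k1 := key n
      have b1 := h (i + n * p)
      have b2 := h i
      have : |(n : ℝ) * d| < 1 := by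
        have e : (n : ℝ) * d = X (i + n * p) - X i := by rw [k1]; ring
        rw [e, abs_lt]
        constructor
        · simp only [hX]; linarith [b1.1, b2.2]
        · simp only [hX]; linarith [b1.2, b2.1]
      rw [abs_mul, Nat.abs_cast] at this
      linarith
  rcases lt_or_gt_of_ne hij with h' | h'
  · exact main i j h' hclose
  · exact main j i h' (by rw [abs_sub_comm]; exact hclose)

/-- the reflection chains -/
def Walk (mu w : ℝ) : ℕ → ℝ → ℝ → Prop
  | 0, a, b => b = Int.fract (mu - a)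
  | k + 1, a, b => ∃ u, Walk mu w k a u ∧ 0 < u ∧ u < w ∧ b = Int.fract (mu - (w - u))

theorem Walk.prepend {mu w : ℝ} {k : ℕ} : ∀ {a b u : ℝ}, u = Int.fract (mu - a) → 0 < u → u < w →
    Walk mu w k (w - u) b → Walk mu w (k + 1) a b := by
  induction k with
  | zero =>
    intro a b u h1 h2 h3 h4
    exact ⟨u, h1, h2, h3, h4⟩
  | succ k ih =>
    intro a b u h1 h2 h3 h4
    obtain ⟨u', g1, g2, g3, g4⟩ := h4
    exact ⟨u', ih h1 h2 h3 g1, g2, g3, g4⟩

theorem Walk.rev {mu w : ℝ} (hw : w ≤ 1) {k : ℕ} : ∀ {a b : ℝ}, 0 ≤ a → a < 1 → Walk mu w k a b →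
    Walk mu w k b a := by
  have R : ∀ c : ℝ, 0 ≤ c → c < 1 → Int.fract (mu - Int.fract (mu - c)) = c := by
    intro c h0 h1
    have e : mu - Int.fract (mu - c) = c + (⌊mu - c⌋ : ℤ) := by
      rw [← Int.self_sub_floor]; ring
    rw [e, Int.fract_add_intCast, Int.fract_eq_self.2 ⟨h0, h1⟩]
  induction k with
  | zero =>
    intro a b h0 h1 h
    have h' : b = Int.fract (mu - a) := h
    show a = Int.fract (mu - b)
    rw [h', R a h0 h1]
  | succ k ih =>
    intro a b h0 h1 h
    obtain ⟨u, g1, g2, g3, g4⟩ := h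
    have e : Int.fract (mu - b) = w - u := by
      rw [g4, R (w - u) (by linarith) (by linarith)]
    have hs := ih h0 h1 g1
    refine Walk.prepend (u := w - u) e.symm (by linarith) (by linarith) ?_
    rw [sub_sub_cancel]; exact hs

theorem Walk.fn {mu w : ℝ} {k : ℕ} : ∀ {a b b' : ℝ}, Walk mu w k a b → Walk mu w k a b' → b = b' := by
  induction k with
  | zero => intro a b b' h h'; exact h.trans (Eq.symm h')
  | succ k ih =>
    intro a b b' h h'
    obtain ⟨u, g1, g2, g3, g4⟩ := h
    obtain ⟨u', g1', g2', g3', g4'⟩ := h'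
    have := ih g1 g1'
    subst this
    rw [g4, g4']

theorem Walk.pre {mu w : ℝ} {j k : ℕ} (hjk : j < k) {a b : ℝ} (h : Walk mu w k a b) :
    ∃ u, Walk mu w j a u ∧ u < w := by
  induction k generalizing b with
  | zero => omega
  | succ k ih =>
    obtain ⟨u, g1, g2, g3, g4⟩ := h
    rcases Nat.lt_succ_iff_lt_or_eq.1 hjk with h' | h'
    · exact ih h' g1
    · subst h'; exact ⟨u, g1, g3⟩

theorem Walk.det {mu w : ℝ} {j k : ℕ} {a b b' : ℝ} (h : Walk mu w j a b) (h' : Walk mu w k a b')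
    (hb : w < b) (hb' : w < b') : b = b' := by
  rcases lt_trichotomy j k with hjk | hjk | hjk
  · obtain ⟨u, g1, g2⟩ := h'.pre hjk
    have := h.fn g1
    linarith
  · subst hjk; exact h.fn h'
  · obtain ⟨u, g1, g2⟩ := h.pre hjk
    have := h'.fn g1
    linarith

section
variable {mu w : ℝ} {St : ℤ → ℝ → ℝ → Prop}

/-- a state occurs twice -/
def Rep (St : ℤ → ℝ → ℝ → Prop) : Prop := ∃ k k' g t, k < k' ∧ St k g t ∧ St k' g t

theorem rot_states (h1 : ∀ k g t, St k g t → g < w → ∃ k', k < k' ∧ St k' (Int.fract (g + mu - w)) t)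
    {k : ℤ} {u g : ℝ} (hs : St k u g) (j : ℕ) (h : ∀ i < j, (rotF (mu - w))^[i] u < w) :
    ∃ k' : ℤ, k + j ≤ k' ∧ St k' ((rotF (mu - w))^[j] u) g := by
  induction j with
  | zero => exact ⟨k, by simp, hs⟩
  | succ j ih =>
    obtain ⟨k', hk', hs'⟩ := ih (fun i hi => h i (by omega))
    obtain ⟨k'', hk'', hs''⟩ := h1 _ _ _ hs' (h j (by omega))
    refine ⟨k'', by push_cast; omega, ?_⟩
    rw [Function.iterate_succ_apply', rotF]
    rwa [show (rotF (mu - w))^[j] u + (mu - w) = (rotF (mu - w))^[j] u + mu - w by ring]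

theorem rot_alt (hw1 : w < 1)
    (hr : ∀ k g t, St k g t → 0 < g ∧ g < 1 ∧ g ≠ w ∧ w < t ∧ t < 1)
    (h1 : ∀ k g t, St k g t → g < w → ∃ k', k < k' ∧ St k' (Int.fract (g + mu - w)) t)
    {k : ℤ} {u g : ℝ} (hs : St k u g) :
    Rep St ∨ ∃ j : ℕ, (∀ i < j, (rotF (mu - w))^[i] u < w) ∧ w < (rotF (mu - w))^[j] u ∧
      ∃ k' : ℤ, k + j ≤ k' ∧ St k' ((rotF (mu - w))^[j] u) g := by
  by_cases H : ∃ j, ¬ ((rotF (mu - w))^[j] u < w)
  · right
    classical
    refine ⟨Nat.find H, ?_, ?_, ?_⟩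
    · intro i hi
      have := Nat.find_min H hi
      push Not at this
      exact this
    · obtain ⟨k', _, hs'⟩ := rot_states h1 hs (Nat.find H) (fun i hi => by
        have := Nat.find_min H hi
        push Not at this
        exact this)
      have h2 := not_lt.1 (Nat.find_spec H)
      exact lt_of_le_of_ne h2 (hr _ _ _ hs').2.2.1.symm
    · exact rot_states h1 hs (Nat.find H) (fun i hi => by
        have := Nat.find_min H hi
        push Not at this
        exact this)
  · left
    push Not at H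
    have hall : ∀ j, 0 < (rotF (mu - w))^[j] u ∧ (rotF (mu - w))^[j] u < w := by
      intro j
      obtain ⟨k', _, hs'⟩ := rot_states h1 hs j (fun i _ => H i)
      exact ⟨(hr _ _ _ hs').1, H j⟩
    obtain ⟨i, j, hij, he⟩ := rot_periodic (mu - w) u w hw1 hall
    obtain ⟨ki, _, hsi⟩ := rot_states h1 hs i (fun i _ => H i)
    obtain ⟨kj, hkj, hsj⟩ := rot_states h1 hsi (j - i) (fun l _ => by
      rw [← Function.iterate_add_apply]; exact H _)
    rw [← Function.iterate_add_apply, show j - i + i = j by omega, ← he] at hsj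
    exact ⟨ki, kj, _, _, by
      have : (0 : ℤ) < ((j - i : ℕ) : ℤ) := by
        have : 0 < j - i := by omega
        exact_mod_cast this
      omega, hsi, hsj⟩

theorem rot_next (hw1 : w < 1)
    (hr : ∀ k g t, St k g t → 0 < g ∧ g < 1 ∧ g ≠ w ∧ w < t ∧ t < 1)
    (h1 : ∀ k g t, St k g t → g < w → ∃ k', k < k' ∧ St k' (Int.fract (g + mu - w)) t)
    (h2 : ∀ k g t, St k g t → w < g → ∃ k', k < k' ∧ St k' (Int.fract (mu - t)) g)
    {k : ℤ} {g t : ℝ} (hs : St k g t) (hg : w < g) :
    Rep St ∨ ∃ (k' : ℤ) (j : ℕ) (y : ℝ), k < k' ∧ Walk mu w j t y ∧ w < y ∧ St k' y g := by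
  obtain ⟨k1, hk1, hs1⟩ := h2 _ _ _ hs hg
  rcases rot_alt hw1 hr h1 hs1 with h | ⟨j, hj1, hj2, k2, hk2, hs2⟩
  · exact Or.inl h
  · right
    refine ⟨k2, j, _, ?_, ?_, hj2, hs2⟩
    · have : (0 : ℤ) ≤ (j : ℤ) := by positivity
      omega
    · have hpos : ∀ i ≤ j, 0 < (rotF (mu - w))^[i] (Int.fract (mu - t)) := by
        intro i hi
        obtain ⟨k', _, hs'⟩ := rot_states h1 hs1 i (fun l hl => hj1 l (by omega))
        exact (hr _ _ _ hs').1
      have : ∀ i ≤ j, Walk mu w i t ((rotF (mu - w))^[i] (Int.fract (mu - t))) := by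
        intro i
        induction i with
        | zero => intro _; rfl
        | succ i ih =>
          intro hi
          refine ⟨_, ih (by omega), hpos i (by omega), hj1 i (by omega), ?_⟩
          rw [Function.iterate_succ_apply', rotF]
          congr 1; ring
      exact this j le_rfl

/-- The abstract dynamics: every orbit of states is periodic. -/
theorem rot_main (hw0 : 0 ≤ w) (hw1 : w < 1)
    (hr : ∀ k g t, St k g t → 0 < g ∧ g < 1 ∧ g ≠ w ∧ w < t ∧ t < 1)
    (h1 : ∀ k g t, St k g t → g < w → ∃ k', k < k' ∧ St k' (Int.fract (g + mu - w)) t)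
    (h2 : ∀ k g t, St k g t → w < g → ∃ k', k < k' ∧ St k' (Int.fract (mu - t)) g)
    {k0 : ℤ} {g0 t0 : ℝ} (hs0 : St k0 g0 t0) : Rep St := by
  rcases rot_alt hw1 hr h1 hs0 with h | ⟨j, _, hj2, k, _, hs⟩
  · exact h
  set g := (rotF (mu - w))^[j] g0
  rcases rot_next hw1 hr h1 h2 hs hj2 with h | ⟨k1, j1, y1, hk1, hw1', hy1, hs1⟩
  · exact h
  rcases rot_next hw1 hr h1 h2 hs1 hy1 with h | ⟨k2, j2, y2, hk2, hw2', hy2, hs2⟩
  · exact h
  rcases rot_next hw1 hr h1 h2 hs2 hy2 with h | ⟨k3, j3, y3, hk3, hw3', hy3, hs3⟩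
  · exact h
  rcases rot_next hw1 hr h1 h2 hs3 hy3 with h | ⟨k4, j4, y4, hk4, hw4', hy4, hs4⟩
  · exact h
  obtain ⟨r1, r2, r3, r4, r5⟩ := hr _ _ _ hs
  obtain ⟨q1, q2, q3, q4, q5⟩ := hr _ _ _ hs1
  -- y3 = t0
  have e3 : y3 = t0 := hw3'.det (hw1'.rev hw1.le (by linarith) r5) hy3 r4
  have e4 : y4 = g := hw4'.det (hw2'.rev hw1.le (by linarith) q5) hy4 q4
  subst e3
  rw [e4] at hs4
  exact ⟨k, k4, g, y3, by omega, hs, hs4⟩

end

end SympB
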