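import Pool.Agent.W_93b186_h29.Gen
import Pool.Agent.W_93b186_h29.Rot

/-!
# Roof polygons: a parallelogram with a cap
-/

set_option autoImplicit false

namespace SympB

/-- The polygon with vertices `(0,0), (1,0), (1+a, m₁ a), (1+a, 1 - m₂ a), (1,1), (0,1)` (the third
and fourth may coincide). -/
structure IsRoof {n : ℕ} (v : ZMod n → ℝ × ℝ) (m1 m2 a : ℝ) : Prop where
  hm1 : 0 < m1
  hm2 : 0 < m2
  ha : 0 < a
  hw : m1 * a + m2 * a ≤ 1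
  B : ∃ i, v i = (0, 0) ∧ v (i + 1) = (1, 0)
  D : ∃ i, v i = (1, 0) ∧ v (i + 1) = (1 + a, m1 * a)
  R : m1 * a + m2 * a < 1 → ∃ i, v i = (1 + a, m1 * a) ∧ v (i + 1) = (1 + a, 1 - m2 * a)
  U : ∃ i, v i = (1 + a, 1 - m2 * a) ∧ v (i + 1) = (1, 1)
  T : ∃ i, v i = (1, 1) ∧ v (i + 1) = (0, 1)
  L : ∃ i, v i = (0, 1) ∧ v (i + 1) = (0, 0)
  all : ∀ i, (v i = (0, 0) ∧ v (i + 1) = (1, 0)) ∨ (v i = (1, 0) ∧ v (i + 1) = (1 + a, m1 * a)) ∨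
    (v i = (1 + a, m1 * a) ∧ v (i + 1) = (1 + a, 1 - m2 * a) ∧ m1 * a + m2 * a < 1) ∨
    (v i = (1 + a, 1 - m2 * a) ∧ v (i + 1) = (1, 1)) ∨ (v i = (1, 1) ∧ v (i + 1) = (0, 1)) ∨
    (v i = (0, 1) ∧ v (i + 1) = (0, 0))

def PB (z : ℝ × ℝ) : Prop := z.2 = 0 ∧ 0 < z.1 ∧ z.1 < 1
def PD (m1 a : ℝ) (z : ℝ × ℝ) : Prop := z.2 = m1 * (z.1 - 1) ∧ 1 < z.1 ∧ z.1 < 1 + a
def PR (m1 m2 a : ℝ) (z : ℝ × ℝ) : Prop := z.1 = 1 + a ∧ m1 * a < z.2 ∧ z.2 < 1 - m2 * a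
def PU (m2 a : ℝ) (z : ℝ × ℝ) : Prop := z.2 = 1 - m2 * (z.1 - 1) ∧ 1 < z.1 ∧ z.1 < 1 + a
def PT (z : ℝ × ℝ) : Prop := z.2 = 1 ∧ 0 < z.1 ∧ z.1 < 1
def PL (z : ℝ × ℝ) : Prop := z.1 = 0 ∧ 0 < z.2 ∧ z.2 < 1

theorem mem_seg_of {A B z : ℝ × ℝ} (t : ℝ) (h0 : 0 ≤ t) (h1 : t ≤ 1) (e1 : z.1 = A.1 + t * (B.1 - A.1))
    (e2 : z.2 = A.2 + t * (B.2 - A.2)) : z ∈ segment ℝ A B := by
  rw [segment_eq_image']
  exact ⟨t, ⟨h0, h1⟩, Prod.ext (by simp [e1]) (by simp [e2])⟩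

theorem mem_open_seg_of {A B z : ℝ × ℝ} (t : ℝ) (h0 : 0 < t) (h1 : t < 1) (e1 : z.1 = A.1 + t * (B.1 - A.1))
    (e2 : z.2 = A.2 + t * (B.2 - A.2)) : z ∈ openSegment ℝ A B := by
  rw [openSegment_eq_image']
  exact ⟨t, ⟨h0, h1⟩, Prod.ext (by simp [e1]) (by simp [e2])⟩

theorem of_mem_open {A B z : ℝ × ℝ} (h : z ∈ openSegment ℝ A B) : ∃ t : ℝ, 0 < t ∧ t < 1 ∧
    z.1 = A.1 + t * (B.1 - A.1) ∧ z.2 = A.2 + t * (B.2 - A.2) := by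
  rw [openSegment_eq_image'] at h
  obtain ⟨t, ⟨h0, h1⟩, rfl⟩ := h
  exact ⟨t, h0, h1, by simp, by simp⟩

section
variable {n : ℕ} {v : ZMod n → ℝ × ℝ} {m1 m2 a : ℝ}

theorem IsRoof.openB (h : IsRoof v m1 m2 a) {z : ℝ × ℝ} (hz : PB z) :
    ∃ j, z ∈ openSegment ℝ (v j) (v (j + 1)) ∧ v (j + 1) - v j = (1, 0) := by
  obtain ⟨i, h1, h2⟩ := h.B
  obtain ⟨z1, z2, z3⟩ := hz
  refine ⟨i, ?_, by rw [h1, h2]; simp⟩
  rw [h1, h2]
  exact mem_open_seg_of z.1 z2 z3 (by simp) (by simp [z1])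

theorem IsRoof.openT (h : IsRoof v m1 m2 a) {z : ℝ × ℝ} (hz : PT z) :
    ∃ j, z ∈ openSegment ℝ (v j) (v (j + 1)) ∧ v (j + 1) - v j = (-1, 0) := by
  obtain ⟨i, h1, h2⟩ := h.T
  obtain ⟨z1, z2, z3⟩ := hz
  refine ⟨i, ?_, by rw [h1, h2]; simp⟩
  rw [h1, h2]
  exact mem_open_seg_of (1 - z.1) (by linarith) (by linarith) (by simp) (by simp [z1])

theorem IsRoof.openL (h : IsRoof v m1 m2 a) {z : ℝ × ℝ} (hz : PL z) :
    ∃ j, z ∈ openSegment ℝ (v j) (v (j + 1)) ∧ v (j + 1) - v j = (0, -1) := by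
  obtain ⟨i, h1, h2⟩ := h.L
  obtain ⟨z1, z2, z3⟩ := hz
  refine ⟨i, ?_, by rw [h1, h2]; simp⟩
  rw [h1, h2]
  exact mem_open_seg_of (1 - z.2) (by linarith) (by linarith) (by simp [z1]) (by simp)

theorem IsRoof.openR (h : IsRoof v m1 m2 a) {z : ℝ × ℝ} (hz : PR m1 m2 a z) :
    ∃ j, z ∈ openSegment ℝ (v j) (v (j + 1)) ∧ v (j + 1) - v j = (0, 1 - m2 * a - m1 * a) := by
  obtain ⟨z1, z2, z3⟩ := hz
  have hw : m1 * a + m2 * a < 1 := by linarith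
  obtain ⟨i, h1, h2⟩ := h.R hw
  refine ⟨i, ?_, by rw [h1, h2]; simp⟩
  rw [h1, h2]
  have hd : 0 < 1 - m2 * a - m1 * a := by linarith
  refine mem_open_seg_of ((z.2 - m1 * a) / (1 - m2 * a - m1 * a)) (div_pos (by linarith) hd) ?_ ?_ ?_
  · rw [div_lt_one hd]; linarith
  · simp [z1]
  · simp only
    rw [div_mul_cancel₀ _ hd.ne']; ring

theorem IsRoof.openD (h : IsRoof v m1 m2 a) {z : ℝ × ℝ} (hz : PD m1 a z) :
    ∃ j, z ∈ openSegment ℝ (v j) (v (j + 1)) ∧ v (j + 1) - v j = (a, m1 * a) := by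
  obtain ⟨i, h1, h2⟩ := h.D
  obtain ⟨z1, z2, z3⟩ := hz
  have ha := h.ha
  refine ⟨i, ?_, by rw [h1, h2]; simp⟩
  rw [h1, h2]
  refine mem_open_seg_of ((z.1 - 1) / a) (div_pos (by linarith) ha) ?_ ?_ ?_
  · rw [div_lt_one ha]; linarith
  · simp only [add_sub_cancel_left]
    rw [div_mul_cancel₀ _ ha.ne']; ring
  · simp only [sub_zero, zero_add]
    rw [z1]; field_simp

theorem IsRoof.openU (h : IsRoof v m1 m2 a) {z : ℝ × ℝ} (hz : PU m2 a z) :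
    ∃ j, z ∈ openSegment ℝ (v j) (v (j + 1)) ∧ v (j + 1) - v j = (-a, m2 * a) := by
  obtain ⟨i, h1, h2⟩ := h.U
  obtain ⟨z1, z2, z3⟩ := hz
  have ha := h.ha
  refine ⟨i, ?_, by rw [h1, h2]; simp⟩
  rw [h1, h2]
  refine mem_open_seg_of ((1 + a - z.1) / a) (div_pos (by linarith) ha) ?_ ?_ ?_
  · rw [div_lt_one ha]; linarith
  · simp only
    field_simp; ring
  · simp only
    rw [z1]; field_simp; ring

/-- classification of the points in the relative interiors of the sides -/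
theorem IsRoof.cls (h : IsRoof v m1 m2 a) {z : ℝ × ℝ} {j : ZMod n}
    (hz : z ∈ openSegment ℝ (v j) (v (j + 1))) :
    (PB z ∧ v (j + 1) - v j = (1, 0)) ∨ (PD m1 a z ∧ v (j + 1) - v j = (a, m1 * a)) ∨
    (PR m1 m2 a z ∧ v (j + 1) - v j = (0, 1 - m2 * a - m1 * a)) ∨
    (PU m2 a z ∧ v (j + 1) - v j = (-a, m2 * a)) ∨
    (PT z ∧ v (j + 1) - v j = (-1, 0)) ∨ (PL z ∧ v (j + 1) - v j = (0, -1)) := by
  have ha := h.ha
  obtain ⟨t, h0, h1, e1, e2⟩ := of_mem_open hz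
  rcases h.all j with ⟨g1, g2⟩ | ⟨g1, g2⟩ | ⟨g1, g2, g3⟩ | ⟨g1, g2⟩ | ⟨g1, g2⟩ | ⟨g1, g2⟩
  · rw [g1, g2] at e1 e2
    simp only at e1 e2
    refine Or.inl ⟨⟨by linarith, by linarith, by linarith⟩, by rw [g1, g2]; simp⟩
  · rw [g1, g2] at e1 e2
    simp only at e1 e2
    have p1 : 0 < t * a := mul_pos h0 ha
    have p2 : t * a < a := by nlinarith
    refine Or.inr (Or.inl ⟨⟨?_, by linarith, by linarith⟩, by rw [g1, g2]; simp⟩)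
    rw [e1, e2]; ring
  · rw [g1, g2] at e1 e2
    simp only at e1 e2
    have hd : 0 < 1 - m2 * a - m1 * a := by linarith
    have p1 : 0 < t * (1 - m2 * a - m1 * a) := mul_pos h0 hd
    have p2 : t * (1 - m2 * a - m1 * a) < 1 - m2 * a - m1 * a := by nlinarith
    refine Or.inr (Or.inr (Or.inl ⟨⟨by linarith, by linarith, by linarith⟩, by rw [g1, g2]; simp⟩))
  · rw [g1, g2] at e1 e2
    simp only at e1 e2
    have p1 : 0 < t * a := mul_pos h0 ha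
    have p2 : t * a < a := by nlinarith
    refine Or.inr (Or.inr (Or.inr (Or.inl ⟨⟨?_, by linarith, by linarith⟩, by rw [g1, g2]; simp⟩)))
    rw [e1, e2]; ring
  · rw [g1, g2] at e1 e2
    simp only at e1 e2
    refine Or.inr (Or.inr (Or.inr (Or.inr (Or.inl ⟨⟨by linarith, by linarith, by linarith⟩, by rw [g1, g2]; simp⟩))))
  · rw [g1, g2] at e1 e2
    simp only at e1 e2
    refine Or.inr (Or.inr (Or.inr (Or.inr (Or.inr ⟨⟨by linarith, by linarith, by linarith⟩, by rw [g1, g2]; simp⟩))))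

theorem IsRoof.bdB (h : IsRoof v m1 m2 a) {z : ℝ × ℝ} (z1 : z.2 = 0) (z2 : 0 ≤ z.1) (z3 : z.1 ≤ 1) :
    z ∈ bdry v := by
  obtain ⟨i, h1, h2⟩ := h.B
  refine Set.mem_iUnion.2 ⟨i, ?_⟩
  rw [h1, h2]
  exact mem_seg_of z.1 z2 z3 (by simp) (by simp [z1])

theorem IsRoof.bdT (h : IsRoof v m1 m2 a) {z : ℝ × ℝ} (z1 : z.2 = 1) (z2 : 0 ≤ z.1) (z3 : z.1 ≤ 1) :
    z ∈ bdry v := by
  obtain ⟨i, h1, h2⟩ := h.T
  refine Set.mem_iUnion.2 ⟨i, ?_⟩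
  rw [h1, h2]
  exact mem_seg_of (1 - z.1) (by linarith) (by linarith) (by simp) (by simp [z1])

theorem IsRoof.bdL (h : IsRoof v m1 m2 a) {z : ℝ × ℝ} (z1 : z.1 = 0) (z2 : 0 ≤ z.2) (z3 : z.2 ≤ 1) :
    z ∈ bdry v := by
  obtain ⟨i, h1, h2⟩ := h.L
  refine Set.mem_iUnion.2 ⟨i, ?_⟩
  rw [h1, h2]
  exact mem_seg_of (1 - z.2) (by linarith) (by linarith) (by simp [z1]) (by simp)

theorem IsRoof.bdD (h : IsRoof v m1 m2 a) {z : ℝ × ℝ} (z1 : z.2 = m1 * (z.1 - 1)) (z2 : 1 ≤ z.1)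
    (z3 : z.1 ≤ 1 + a) : z ∈ bdry v := by
  obtain ⟨i, h1, h2⟩ := h.D
  have ha := h.ha
  refine Set.mem_iUnion.2 ⟨i, ?_⟩
  rw [h1, h2]
  refine mem_seg_of ((z.1 - 1) / a) (div_nonneg (by linarith) ha.le) ?_ ?_ ?_
  · rw [div_le_one ha]; linarith
  · simp only [add_sub_cancel_left]
    rw [div_mul_cancel₀ _ ha.ne']; ring
  · simp only [sub_zero, zero_add]
    rw [z1]; field_simp

theorem IsRoof.bdU (h : IsRoof v m1 m2 a) {z : ℝ × ℝ} (z1 : z.2 = 1 - m2 * (z.1 - 1)) (z2 : 1 ≤ z.1)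
    (z3 : z.1 ≤ 1 + a) : z ∈ bdry v := by
  obtain ⟨i, h1, h2⟩ := h.U
  have ha := h.ha
  refine Set.mem_iUnion.2 ⟨i, ?_⟩
  rw [h1, h2]
  refine mem_seg_of ((1 + a - z.1) / a) (div_nonneg (by linarith) ha.le) ?_ ?_ ?_
  · rw [div_le_one ha]; linarith
  · simp only
    field_simp; ring
  · simp only
    rw [z1]; field_simp; ring

theorem IsRoof.bdR (h : IsRoof v m1 m2 a) {z : ℝ × ℝ} (hz : PR m1 m2 a z) : z ∈ bdry v := by
  obtain ⟨j, hj, _⟩ := h.openR hz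
  exact open_bdry hj

section orbit
variable {x : ℤ → ℝ × ℝ}

theorem IsRoof.nextH (h : IsRoof v m1 m2 a) (hv : IsConvexPolygon v) (hx : IsOrbit v x) {m : ℤ}
    (hy : PB (x (m + 1)) ∨ PT (x (m + 1))) {z : ℝ × ℝ} (hz : z ∈ bdry v) (e : z.2 = (x m).2)
    (hne : z.1 ≠ (x m).1) : x (m + 2) = z := by
  have hne' : z ≠ x m := fun h => hne (by rw [h])
  rcases hy with hy | hy
  · obtain ⟨j, hj, hd⟩ := h.openB hy
    refine hx.next hv hj hz ?_ hne'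
    rw [hd]; simp [cross, e]
  · obtain ⟨j, hj, hd⟩ := h.openT hy
    refine hx.next hv hj hz ?_ hne'
    rw [hd]; simp [cross, e]

theorem IsRoof.nextV (h : IsRoof v m1 m2 a) (hv : IsConvexPolygon v) (hx : IsOrbit v x) {m : ℤ}
    (hy : PL (x (m + 1)) ∨ PR m1 m2 a (x (m + 1))) {z : ℝ × ℝ} (hz : z ∈ bdry v) (e : z.1 = (x m).1)
    (hne : z.2 ≠ (x m).2) : x (m + 2) = z := by
  have hne' : z ≠ x m := fun h => hne (by rw [h])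
  rcases hy with hy | hy
  · obtain ⟨j, hj, hd⟩ := h.openL hy
    refine hx.next hv hj hz ?_ hne'
    rw [hd]; simp [cross, e]
  · obtain ⟨j, hj, hd⟩ := h.openR hy
    refine hx.next hv hj hz ?_ hne'
    rw [hd]; simp [cross, e]

theorem IsRoof.nextD (h : IsRoof v m1 m2 a) (hv : IsConvexPolygon v) (hx : IsOrbit v x) {m : ℤ}
    (hy : PD m1 a (x (m + 1))) {z : ℝ × ℝ} (hz : z ∈ bdry v)
    (e : z.2 - (x m).2 = m1 * (z.1 - (x m).1)) (hne : z.1 ≠ (x m).1) : x (m + 2) = z := by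
  have hne' : z ≠ x m := fun h => hne (by rw [h])
  obtain ⟨j, hj, hd⟩ := h.openD hy
  refine hx.next hv hj hz ?_ hne'
  rw [hd]; simp only [cross, Prod.fst_sub, Prod.snd_sub]; rw [e]; ring

theorem IsRoof.nextU (h : IsRoof v m1 m2 a) (hv : IsConvexPolygon v) (hx : IsOrbit v x) {m : ℤ}
    (hy : PU m2 a (x (m + 1))) {z : ℝ × ℝ} (hz : z ∈ bdry v)
    (e : z.2 - (x m).2 = - m2 * (z.1 - (x m).1)) (hne : z.1 ≠ (x m).1) : x (m + 2) = z := by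
  have hne' : z ≠ x m := fun h => hne (by rw [h])
  obtain ⟨j, hj, hd⟩ := h.openU hy
  refine hx.next hv hj hz ?_ hne'
  rw [hd]; simp only [cross, Prod.fst_sub, Prod.snd_sub]; rw [e]; ring

/-- class of an orbit point -/
theorem IsRoof.orb (h : IsRoof v m1 m2 a) (hx : IsOrbit v x) (m : ℤ) :
    PB (x m) ∨ PD m1 a (x m) ∨ PR m1 m2 a (x m) ∨ PU m2 a (x m) ∨ PT (x m) ∨ PL (x m) := by
  obtain ⟨j, hj⟩ := hx.side m
  rcases h.cls hj with g | g | g | g | g | g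
  · exact Or.inl g.1
  · exact Or.inr (Or.inl g.1)
  · exact Or.inr (Or.inr (Or.inl g.1))
  · exact Or.inr (Or.inr (Or.inr (Or.inl g.1)))
  · exact Or.inr (Or.inr (Or.inr (Or.inr (Or.inl g.1))))
  · exact Or.inr (Or.inr (Or.inr (Or.inr (Or.inr g.1))))

end orbit

end

end SympB
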