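import Pool.Agent.W_93b186_h29.Roof

/-!
# Roof polygons: the transitions
-/

set_option autoImplicit false

namespace SympB

section
variable {n : ℕ} {v : ZMod n → ℝ × ℝ} {m1 m2 a : ℝ} {x : ℤ → ℝ × ℝ}

theorem IsRoof.nH (h : IsRoof v m1 m2 a) (hv : IsConvexPolygon v) (hx : IsOrbit v x) {m m' m'' : ℤ}
    (hm1 : m' = m + 1) (hm2 : m'' = m + 2)
    (hy : PB (x m') ∨ PT (x m')) {z : ℝ × ℝ} (hz : z ∈ bdry v) (e : z.2 = (x m).2)
    (hne : z.1 ≠ (x m).1) : x m'' = z := by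
  subst hm1; subst hm2
  exact h.nextH hv hx hy hz e hne

theorem IsRoof.nV (h : IsRoof v m1 m2 a) (hv : IsConvexPolygon v) (hx : IsOrbit v x) {m m' m'' : ℤ}
    (hm1 : m' = m + 1) (hm2 : m'' = m + 2)
    (hy : PL (x m') ∨ PR m1 m2 a (x m')) {z : ℝ × ℝ} (hz : z ∈ bdry v) (e : z.1 = (x m).1)
    (hne : z.2 ≠ (x m).2) : x m'' = z := by
  subst hm1; subst hm2
  exact h.nextV hv hx hy hz e hne

/-- A `D` state: the walker at time `k` is on the bottom or on the left side, on the line through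
`(1, g)` parallel to the lower roof side, and the other walker is on the lower roof side. -/
def DS (m1 a : ℝ) (x : ℤ → ℝ × ℝ) (k : ℤ) (g X : ℝ) : Prop :=
  (PB (x k) ∨ PL (x k)) ∧ (x k).2 = g + m1 * ((x k).1 - 1) ∧ x (k + 1) = (X, m1 * (X - 1)) ∧ 1 < X ∧ X < 1 + a

/-- A `U` state. -/
def US (m1 m2 a : ℝ) (x : ℤ → ℝ × ℝ) (k : ℤ) (d X : ℝ) : Prop :=
  (PB (x k) ∨ PD m1 a (x k) ∨ PR m1 m2 a (x k)) ∧ (x k).2 = d - m2 * ((x k).1 - 1) ∧
    x (k + 1) = (X, 1 - m2 * (X - 1)) ∧ 1 < X ∧ X < 1 + a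

theorem DS.rg (h : IsRoof v m1 m2 a) {k : ℤ} {g X : ℝ} (hs : DS m1 a x k g X) :
    0 < g ∧ g < 1 + m1 ∧ 0 ≤ (x k).1 ∧ (x k).1 < 1 ∧ 0 ≤ (x k).2 ∧ (x k).2 < 1 := by
  have hm1 := h.hm1
  obtain ⟨h1, h2, _⟩ := hs
  rcases h1 with ⟨g1, g2, g3⟩ | ⟨g1, g2, g3⟩
  · rw [g1] at h2
    have : m1 * ((x k).1 - 1) < 0 := mul_neg_of_pos_of_neg hm1 (by linarith)
    have : 0 < m1 * (x k).1 := mul_pos hm1 g2
    refine ⟨by linarith, by linarith, by linarith, by linarith, by linarith, by linarith⟩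
  · rw [g1] at h2
    refine ⟨by linarith, by linarith, by linarith, by linarith, by linarith, by linarith⟩

theorem DS.pd {k : ℤ} {g X : ℝ} (hs : DS m1 a x k g X) : PD m1 a (x (k + 1)) := by
  obtain ⟨_, _, h3, h4, h5⟩ := hs
  rw [h3]
  exact ⟨rfl, h4, h5⟩

theorem US.pu {k : ℤ} {d X : ℝ} (hs : US m1 m2 a x k d X) : PU m2 a (x (k + 1)) := by
  obtain ⟨_, _, h3, h4, h5⟩ := hs
  rw [h3]
  exact ⟨rfl, h4, h5⟩

theorem US.rg (h : IsRoof v m1 m2 a) {k : ℤ} {d X : ℝ} (hs : US m1 m2 a x k d X) :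
    -m2 < d ∧ d < 1 ∧ 0 < (x k).1 ∧ 0 ≤ (x k).2 ∧ (x k).2 < 1 := by
  have hm1 := h.hm1
  have hm2 := h.hm2
  have ha := h.ha
  have hw := h.hw
  have q1 : 0 < m1 * a := mul_pos hm1 ha
  have q2 : 0 < m2 * a := mul_pos hm2 ha
  obtain ⟨h1, h2, _⟩ := hs
  rcases h1 with ⟨g1, g2, g3⟩ | ⟨g1, g2, g3⟩ | ⟨g1, g2, g3⟩
  · rw [g1] at h2
    have : m2 * ((x k).1 - 1) < 0 := mul_neg_of_pos_of_neg hm2 (by linarith)
    have : 0 < m2 * (x k).1 := mul_pos hm2 g2
    refine ⟨by linarith, by linarith, by linarith, by linarith, by linarith⟩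
  · have p1 : 0 < m1 * ((x k).1 - 1) := mul_pos hm1 (by linarith)
    have p2 : 0 < m2 * ((x k).1 - 1) := mul_pos hm2 (by linarith)
    have p3 : m1 * ((x k).1 - 1) < m1 * a := by
      apply mul_lt_mul_of_pos_left _ hm1; linarith
    have p4 : m2 * ((x k).1 - 1) < m2 * a := by
      apply mul_lt_mul_of_pos_left _ hm2; linarith
    refine ⟨by linarith, by linarith, by linarith, by linarith, by linarith⟩
  · rw [g1] at h2
    have : m2 * (1 + a - 1) = m2 * a := by ring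
    refine ⟨by linarith, by linarith, by linarith, by linarith, by linarith⟩

/-- `P1` -/
theorem DS.p1 (h : IsRoof v m1 m2 a) (hv : IsConvexPolygon v) (hx : IsOrbit v x) {k : ℤ} {g X : ℝ}
    (hs : DS m1 a x k g X) (hg : 1 < g) : DS m1 a x (k + 4) (g - 1) X := by
  have hm1 := h.hm1
  have hm2 := h.hm2
  have ha := h.ha
  have hw := h.hw
  have q2 : 0 < m2 * a := mul_pos hm2 ha
  obtain ⟨r1, r2, r3, r4, r5, r6⟩ := hs.rg h
  have hpd := hs.pd
  obtain ⟨h1, h2, h3, h4, h5⟩ := hs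
  have p3 : m1 * (X - 1) < m1 * a := by apply mul_lt_mul_of_pos_left _ hm1; linarith
  have p1 : 0 < m1 * (X - 1) := mul_pos hm1 (by linarith)
  set Y := 1 - (g - 1) / m1 with hY
  have hY0 : 0 < Y := by
    have : (g - 1) / m1 < 1 := by rw [div_lt_one hm1]; linarith
    linarith
  have hY1 : Y < 1 := by
    have : 0 < (g - 1) / m1 := div_pos (by linarith) hm1
    linarith
  have hmY : m1 * Y = m1 - (g - 1) := by
    rw [hY]; field_simp
  have s2 : x (k + 2) = (Y, 1) := by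
    refine h.nextD hv hx hpd (h.bdT rfl hY0.le hY1.le) ?_ ?_
    · simp only
      rw [h2]; linear_combination -hmY
    · intro hc
      have hc' : Y = (x k).1 := hc
      rw [← hc'] at h2
      linarith
  have s3 : x (k + 3) = (0, m1 * (X - 1)) := by
    refine h.nH hv hx (m := k + 1) (m' := k + 2) (by ring) (by ring) (Or.inr ?_) (h.bdL rfl ?_ ?_) ?_ ?_
    · rw [s2]; exact ⟨rfl, hY0, hY1⟩
    · exact p1.le
    · show m1 * (X - 1) ≤ 1
      linarith
    · rw [h3]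
    · rw [h3]; simp only; linarith
  have s4 : x (k + 4) = (Y, 0) := by
    refine h.nV hv hx (m := k + 2) (m' := k + 3) (by ring) (by ring) (Or.inl ?_) (h.bdB rfl hY0.le hY1.le) ?_ ?_
    · rw [s3]; exact ⟨rfl, p1, by show m1 * (X - 1) < 1; linarith⟩
    · rw [s2]
    · rw [s2]; norm_num
  have s5 : x (k + 5) = (X, m1 * (X - 1)) := by
    refine h.nH hv hx (m := k + 3) (m' := k + 4) (by ring) (by ring) (Or.inl ?_) (h.bdD rfl h4.le h5.le) ?_ ?_
    · rw [s4]; exact ⟨rfl, hY0, hY1⟩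
    · rw [s3]
    · rw [s3]; simp only; linarith
  refine ⟨Or.inl ?_, ?_, ?_, h4, h5⟩
  · rw [s4]; exact ⟨rfl, hY0, hY1⟩
  · rw [s4]; simp only; linear_combination -hmY
  · rw [show k + 4 + 1 = k + 5 by ring]; exact s5

/-- `P2` -/
theorem DS.p2 (h : IsRoof v m1 m2 a) (hv : IsConvexPolygon v) (hx : IsOrbit v x) {k : ℤ} {g X : ℝ}
    (hs : DS m1 a x k g X) (hg : g < 1 - m1 * a - m2 * a) : US m1 m2 a x (k + 2) (g + (m1 * a + m2 * a)) X := by
  have hm1 := h.hm1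
  have hm2 := h.hm2
  have ha := h.ha
  have hw := h.hw
  obtain ⟨r1, r2, r3, r4, r5, r6⟩ := hs.rg h
  have hpd := hs.pd
  obtain ⟨h1, h2, h3, h4, h5⟩ := hs
  have p3 : m1 * (X - 1) < m1 * a := by apply mul_lt_mul_of_pos_left _ hm1; linarith
  have p4 : m2 * (X - 1) < m2 * a := by apply mul_lt_mul_of_pos_left _ hm2; linarith
  have hR : PR m1 m2 a (1 + a, g + m1 * a) := ⟨rfl, by simp only; linarith, by simp only; linarith⟩
  have s2 : x (k + 2) = (1 + a, g + m1 * a) := by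
    refine h.nextD hv hx hpd (h.bdR hR) ?_ ?_
    · simp only
      rw [h2]; ring
    · simp only; linarith
  have s3 : x (k + 3) = (X, 1 - m2 * (X - 1)) := by
    refine h.nV hv hx (m := k + 1) (m' := k + 2) (by ring) (by ring) (Or.inr ?_) (h.bdU rfl h4.le h5.le) ?_ ?_
    · rw [s2]; exact hR
    · rw [h3]
    · rw [h3]; simp only; linarith
  refine ⟨Or.inr (Or.inr ?_), ?_, ?_, h4, h5⟩
  · rw [s2]; exact hR
  · rw [s2]; simp only; ring
  · rw [show k + 2 + 1 = k + 3 by ring]; exact s3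

/-- `P3` -/
theorem DS.p3 (h : IsRoof v m1 m2 a) (hv : IsConvexPolygon v) (hx : IsOrbit v x) {k : ℤ} {g X : ℝ}
    (hs : DS m1 a x k g X) (hg : 1 - m1 * a - m2 * a < g) (hg1 : g < 1) :
    US m1 m2 a x (k + 1) ((m1 + m2) * (X - 1)) (1 + (1 - g) / (m1 + m2)) := by
  have hm1 := h.hm1
  have hm2 := h.hm2
  have ha := h.ha
  have hw := h.hw
  have hmu : 0 < m1 + m2 := by linarith
  obtain ⟨r1, r2, r3, r4, r5, r6⟩ := hs.rg h
  have hpd := hs.pd
  obtain ⟨h1, h2, h3, h4, h5⟩ := hs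
  have hq : (m1 + m2) * ((1 - g) / (m1 + m2)) = 1 - g := by field_simp
  have hq0 : 0 < (1 - g) / (m1 + m2) := div_pos (by linarith) hmu
  have hq1 : (1 - g) / (m1 + m2) < a := by
    rw [div_lt_iff₀ hmu]; linarith
  have s2 : x (k + 2) = (1 + (1 - g) / (m1 + m2), 1 - m2 * (1 + (1 - g) / (m1 + m2) - 1)) := by
    refine h.nextD hv hx hpd (h.bdU rfl ?_ ?_) ?_ ?_
    · simp only; linarith
    · simp only; linarith
    · simp only
      rw [h2]; linear_combination -hq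
    · simp only; linarith
  refine ⟨Or.inr (Or.inl hpd), ?_, ?_, by linarith, by linarith⟩
  · rw [h3]; simp only; ring
  · rw [show k + 1 + 1 = k + 2 by ring]; exact s2

/-- `P4` -/
theorem US.p4 (h : IsRoof v m1 m2 a) (hv : IsConvexPolygon v) (hx : IsOrbit v x) {k : ℤ} {d X : ℝ}
    (hs : US m1 m2 a x k d X) (hd : d + m2 < 1) : DS m1 a x (k + 2) (d + (m1 + m2)) X := by
  have hm1 := h.hm1
  have hm2 := h.hm2
  have ha := h.ha
  have hw := h.hw
  obtain ⟨r1, r2, r3, r4, r5⟩ := hs.rg h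
  have hpu := hs.pu
  obtain ⟨h1, h2, h3, h4, h5⟩ := hs
  have p3 : m1 * (X - 1) < m1 * a := by apply mul_lt_mul_of_pos_left _ hm1; linarith
  have p4 : m2 * (X - 1) < m2 * a := by apply mul_lt_mul_of_pos_left _ hm2; linarith
  have hL : PL ((0 : ℝ), d + m2) := ⟨rfl, by simp only; linarith, by simp only; linarith⟩
  have s2 : x (k + 2) = (0, d + m2) := by
    refine h.nextU hv hx hpu (h.bdL rfl hL.2.1.le hL.2.2.le) ?_ ?_
    · simp only
      rw [h2]; ring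
    · simp only; linarith
  have s3 : x (k + 3) = (X, m1 * (X - 1)) := by
    refine h.nV hv hx (m := k + 1) (m' := k + 2) (by ring) (by ring) (Or.inl ?_) (h.bdD rfl h4.le h5.le) ?_ ?_
    · rw [s2]; exact hL
    · rw [h3]
    · rw [h3]; simp only; linarith
  refine ⟨Or.inr ?_, ?_, ?_, h4, h5⟩
  · rw [s2]; exact hL
  · rw [s2]; simp only; ring
  · rw [show k + 2 + 1 = k + 3 by ring]; exact s3

/-- `P5` -/
theorem US.p5 (h : IsRoof v m1 m2 a) (hv : IsConvexPolygon v) (hx : IsOrbit v x) {k : ℤ} {d X : ℝ}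
    (hs : US m1 m2 a x k d X) (hd : 1 < d + m2) : US m1 m2 a x (k + 4) (d - 1) X := by
  have hm1 := h.hm1
  have hm2 := h.hm2
  have ha := h.ha
  have hw := h.hw
  have q2 : 0 < m1 * a := mul_pos hm1 ha
  obtain ⟨r1, r2, r3, r4, r5⟩ := hs.rg h
  have hpu := hs.pu
  obtain ⟨h1, h2, h3, h4, h5⟩ := hs
  have p3 : m2 * (X - 1) < m2 * a := by apply mul_lt_mul_of_pos_left _ hm2; linarith
  have p1 : 0 < m2 * (X - 1) := mul_pos hm2 (by linarith)
  set Y := 1 - (1 - d) / m2 with hY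
  have hY0 : 0 < Y := by
    have : (1 - d) / m2 < 1 := by rw [div_lt_one hm2]; linarith
    linarith
  have hY1 : Y < 1 := by
    have : 0 < (1 - d) / m2 := div_pos (by linarith) hm2
    linarith
  have hmY : m2 * Y = m2 - (1 - d) := by
    rw [hY]; field_simp
  have hPL : PL ((0 : ℝ), 1 - m2 * (X - 1)) := ⟨rfl, by simp only; linarith, by simp only; linarith⟩
  have s2 : x (k + 2) = (Y, 1) := by
    refine h.nextU hv hx hpu (h.bdT rfl hY0.le hY1.le) ?_ ?_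
    · simp only
      rw [h2]; linear_combination hmY
    · intro hc
      have hc' : Y = (x k).1 := hc
      rw [← hc'] at h2
      linarith
  have s3 : x (k + 3) = (0, 1 - m2 * (X - 1)) := by
    refine h.nH hv hx (m := k + 1) (m' := k + 2) (by ring) (by ring) (Or.inr ?_) (h.bdL rfl hPL.2.1.le hPL.2.2.le) ?_ ?_
    · rw [s2]; exact ⟨rfl, hY0, hY1⟩
    · rw [h3]
    · rw [h3]; simp only; linarith
  have s4 : x (k + 4) = (Y, 0) := by
    refine h.nV hv hx (m := k + 2) (m' := k + 3) (by ring) (by ring) (Or.inl ?_) (h.bdB rfl hY0.le hY1.le) ?_ ?_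
    · rw [s3]; exact hPL
    · rw [s2]
    · rw [s2]; norm_num
  have s5 : x (k + 5) = (X, 1 - m2 * (X - 1)) := by
    refine h.nH hv hx (m := k + 3) (m' := k + 4) (by ring) (by ring) (Or.inl ?_) (h.bdU rfl h4.le h5.le) ?_ ?_
    · rw [s4]; exact ⟨rfl, hY0, hY1⟩
    · rw [s3]
    · rw [s3]; simp only; linarith
  refine ⟨Or.inl ?_, ?_, ?_, h4, h5⟩
  · rw [s4]; exact ⟨rfl, hY0, hY1⟩
  · rw [s4]; simp only; linear_combination hmY
  · rw [show k + 4 + 1 = k + 5 by ring]; exact s5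

theorem DS.ne_one (h : IsRoof v m1 m2 a) (hv : IsConvexPolygon v) (hx : IsOrbit v x) {k : ℤ} {g X : ℝ}
    (hs : DS m1 a x k g X) : g ≠ 1 := by
  rintro rfl
  obtain ⟨r1, r2, r3, r4, r5, r6⟩ := hs.rg h
  have hpd := hs.pd
  obtain ⟨h1, h2, h3, h4, h5⟩ := hs
  have s2 : x (k + 2) = (1, 1) := by
    refine h.nextD hv hx hpd (h.bdT rfl zero_le_one le_rfl) ?_ ?_
    · simp only
      rw [h2]; ring
    · simp only; linarith
  rcases h.orb hx (k + 2) with g | g | g | g | g | g <;> rw [s2] at g <;> obtain ⟨g1, g2, g3⟩ := g <;>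
    simp only at g1 g2 g3 <;> have ha := h.ha <;> linarith

theorem DS.ne_w (h : IsRoof v m1 m2 a) (hv : IsConvexPolygon v) (hx : IsOrbit v x) {k : ℤ} {g X : ℝ}
    (hs : DS m1 a x k g X) : g ≠ 1 - m1 * a - m2 * a := by
  intro hg
  obtain ⟨r1, r2, r3, r4, r5, r6⟩ := hs.rg h
  have hpd := hs.pd
  obtain ⟨h1, h2, h3, h4, h5⟩ := hs
  have ha := h.ha
  have q2 : 0 < m1 * a := mul_pos h.hm1 ha
  have hw := h.hw
  have s2 : x (k + 2) = (1 + a, 1 - m2 * (1 + a - 1)) := by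
    refine h.nextD hv hx hpd (h.bdU rfl ?_ le_rfl) ?_ ?_
    · simp only; linarith
    · simp only
      rw [h2, hg]; ring
    · simp only; linarith
  rcases h.orb hx (k + 2) with g | g | g | g | g | g <;> rw [s2] at g <;> obtain ⟨g1, g2, g3⟩ := g <;>
    simp only at g1 g2 g3 <;> linarith

theorem US.ne_one (h : IsRoof v m1 m2 a) (hv : IsConvexPolygon v) (hx : IsOrbit v x) {k : ℤ} {d X : ℝ}
    (hs : US m1 m2 a x k d X) : d + m2 ≠ 1 := by
  intro hd
  obtain ⟨r1, r2, r3, r4, r5⟩ := hs.rg h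
  have hpu := hs.pu
  obtain ⟨h1, h2, h3, h4, h5⟩ := hs
  have ha := h.ha
  have s2 : x (k + 2) = (0, 1) := by
    refine h.nextU hv hx hpu (h.bdL rfl zero_le_one le_rfl) ?_ ?_
    · simp only
      rw [h2]; linear_combination -hd
    · simp only; linarith
  rcases h.orb hx (k + 2) with g | g | g | g | g | g <;> rw [s2] at g <;> obtain ⟨g1, g2, g3⟩ := g <;>
    simp only at g1 g2 g3 <;> linarith

/-- reduced states -/
def RS (m1 m2 a : ℝ) (x : ℤ → ℝ × ℝ) (k : ℤ) (g t : ℝ) : Prop :=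
  ∃ X, DS m1 a x k g X ∧ g < 1 ∧ t = 1 - (m1 + m2) * (X - 1)

theorem DS.red (h : IsRoof v m1 m2 a) (hv : IsConvexPolygon v) (hx : IsOrbit v x) (N : ℕ) :
    ∀ {k : ℤ} {g X : ℝ}, DS m1 a x k g X → g < N + 1 →
      ∃ k' : ℤ, k ≤ k' ∧ RS m1 m2 a x k' (Int.fract g) (1 - (m1 + m2) * (X - 1)) := by
  induction N with
  | zero =>
    intro k g X hs hN
    have hg1 : g < 1 := by simpa using hN
    have hg0 := (hs.rg h).1
    rw [Int.fract_eq_self.2 ⟨hg0.le, hg1⟩]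
    exact ⟨k, le_rfl, X, hs, hg1, rfl⟩
  | succ N ih =>
    intro k g X hs hN
    rcases lt_trichotomy g 1 with hg | hg | hg
    · have hg0 := (hs.rg h).1
      rw [Int.fract_eq_self.2 ⟨hg0.le, hg⟩]
      exact ⟨k, le_rfl, X, hs, hg, rfl⟩
    · exact absurd hg (hs.ne_one h hv hx)
    · have hs' := hs.p1 h hv hx hg
      obtain ⟨k', hk', hr⟩ := ih hs' (by push_cast at hN; linarith)
      rw [Int.fract_sub_one] at hr
      exact ⟨k', by omega, hr⟩

theorem DS.red' (h : IsRoof v m1 m2 a) (hv : IsConvexPolygon v) (hx : IsOrbit v x)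
    {k : ℤ} {g X : ℝ} (hs : DS m1 a x k g X) :
      ∃ k' : ℤ, k ≤ k' ∧ RS m1 m2 a x k' (Int.fract g) (1 - (m1 + m2) * (X - 1)) := by
  obtain ⟨N, hN⟩ := exists_nat_gt g
  exact DS.red h hv hx N hs (by linarith)

theorem US.red (h : IsRoof v m1 m2 a) (hv : IsConvexPolygon v) (hx : IsOrbit v x) (N : ℕ) :
    ∀ {k : ℤ} {d X : ℝ}, US m1 m2 a x k d X → d + m2 < N + 1 →
      ∃ k' : ℤ, k < k' ∧ RS m1 m2 a x k' (Int.fract (d + (m1 + m2))) (1 - (m1 + m2) * (X - 1)) := by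
  induction N with
  | zero =>
    intro k d X hs hN
    obtain ⟨k', hk', hr⟩ := (hs.p4 h hv hx (by simpa using hN)).red' h hv hx
    exact ⟨k', by omega, hr⟩
  | succ N ih =>
    intro k d X hs hN
    rcases lt_trichotomy (d + m2) 1 with hg | hg | hg
    · obtain ⟨k', hk', hr⟩ := (hs.p4 h hv hx hg).red' h hv hx
      exact ⟨k', by omega, hr⟩
    · exact absurd hg (hs.ne_one h hv hx)
    · have hs' := hs.p5 h hv hx hg
      obtain ⟨k', hk', hr⟩ := ih hs' (by push_cast at hN; linarith)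
      have e : d - 1 + (m1 + m2) = (d + (m1 + m2)) - 1 := by ring
      rw [e, Int.fract_sub_one] at hr
      exact ⟨k', by omega, hr⟩

theorem US.red' (h : IsRoof v m1 m2 a) (hv : IsConvexPolygon v) (hx : IsOrbit v x)
    {k : ℤ} {d X : ℝ} (hs : US m1 m2 a x k d X) :
      ∃ k' : ℤ, k < k' ∧ RS m1 m2 a x k' (Int.fract (d + (m1 + m2))) (1 - (m1 + m2) * (X - 1)) := by
  obtain ⟨N, hN⟩ := exists_nat_gt (d + m2)
  exact US.red h hv hx N hs (by linarith)

theorem RS.rep (h : IsRoof v m1 m2 a) (hv : IsConvexPolygon v) (hx : IsOrbit v x)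
    {k : ℤ} {g t : ℝ} (hs : RS m1 m2 a x k g t) :
    ∃ i j : ℤ, i < j ∧ x i = x j ∧ x (i + 1) = x (j + 1) := by
  have hm1 := h.hm1
  have hm2 := h.hm2
  have ha := h.ha
  have hw := h.hw
  have hmu : 0 < m1 + m2 := by linarith
  have q1 : 0 < m1 * a := mul_pos hm1 ha
  have q2 : 0 < m2 * a := mul_pos hm2 ha
  have hmain := rot_main (mu := m1 + m2) (w := 1 - m1 * a - m2 * a) (St := RS m1 m2 a x) (by linarith) (by linarith)
    (by
      intro k g t ⟨X, hX, hg, ht⟩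
      have h45 := hX.2.2.2
      have e1 : 0 < (m1 + m2) * (X - 1) := mul_pos hmu (by linarith [h45.1])
      have e2 : (m1 + m2) * (X - 1) < (m1 + m2) * a := by
        apply mul_lt_mul_of_pos_left _ hmu; linarith [h45.2]
      exact ⟨(hX.rg h).1, hg, hX.ne_w h hv hx, by linarith, by linarith⟩)
    (by
      intro k g t ⟨X, hX, hg, ht⟩ hgw
      obtain ⟨k', hk', hr⟩ := (hX.p2 h hv hx hgw).red' h hv hx
      refine ⟨k', by omega, ?_⟩
      rw [ht]
      have e : g + (m1 * a + m2 * a) + (m1 + m2) = (g + (m1 + m2) - (1 - m1 * a - m2 * a)) + 1 := by ring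
      rw [e, Int.fract_add_one] at hr
      exact hr)
    (by
      intro k g t ⟨X, hX, hg, ht⟩ hgw
      obtain ⟨k', hk', hr⟩ := (hX.p3 h hv hx hgw hg).red' h hv hx
      refine ⟨k', by omega, ?_⟩
      have hq : (m1 + m2) * ((1 - g) / (m1 + m2)) = 1 - g := by field_simp
      have e : (m1 + m2) * (X - 1) + (m1 + m2) = (m1 + m2 - t) + 1 := by rw [ht]; ring
      have e2 : 1 - (m1 + m2) * (1 + (1 - g) / (m1 + m2) - 1) = g := by linear_combination -hq
      rw [e, Int.fract_add_one, e2] at hr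
      exact hr) hs
  obtain ⟨i, j, g, t, hij, ⟨X, hX, hg, ht⟩, ⟨X', hX', hg', ht'⟩⟩ := hmain
  have hXX : X = X' := by
    have : (m1 + m2) * (X - 1) = (m1 + m2) * (X' - 1) := by linarith
    have := mul_left_cancel₀ hmu.ne' this
    linarith
  subst hXX
  obtain ⟨a1, a2, a3, _⟩ := hX
  obtain ⟨b1, b2, b3, _⟩ := hX'
  refine ⟨i, j, hij, ?_, by rw [a3, b3]⟩
  rcases a1 with ⟨c1, c2, c3⟩ | ⟨c1, c2, c3⟩ <;> rcases b1 with ⟨d1, d2, d3⟩ | ⟨d1, d2, d3⟩
  · apply Prod.ext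
    · rw [c1] at a2; rw [d1] at b2
      have : m1 * ((x i).1 - 1) = m1 * ((x j).1 - 1) := by linarith
      have := mul_left_cancel₀ hm1.ne' this
      linarith
    · rw [c1, d1]
  · exfalso
    rw [c1] at a2; rw [d1] at b2
    have : m1 * (x i).1 > 0 := mul_pos hm1 c2
    linarith
  · exfalso
    rw [c1] at a2; rw [d1] at b2
    have : m1 * (x j).1 > 0 := mul_pos hm1 d2
    linarith
  · apply Prod.ext
    · rw [c1, d1]
    · rw [a2, b2, c1, d1]

end

end SympB
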