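import Pool.Agent.W_93b186_h29.Roof2

/-!
# Roof polygons have property (AP)
-/

set_option autoImplicit false

namespace SympB

section
variable {n : ℕ} {v : ZMod n → ℝ × ℝ} {m1 m2 a : ℝ} {x : ℤ → ℝ × ℝ}

theorem IsRoof.posD (h : IsRoof v m1 m2 a) (hx : IsOrbit v x) (hp : PosOrbit v x) {m : ℤ}
    (hD : PD m1 a (x (m + 1))) : PB (x m) ∨ PL (x m) := by
  have hm1 := h.hm1
  have hm2 := h.hm2
  have ha := h.ha
  have hw := h.hw
  have q1 : 0 < m1 * a := mul_pos hm1 ha
  have q2 : 0 < m2 * a := mul_pos hm2 ha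
  obtain ⟨i, hi⟩ := hx.side m
  obtain ⟨j, hj, hd⟩ := h.openD hD
  have hc := hp m i j hi hj
  rw [hd] at hc
  rcases h.cls hi with ⟨g, e⟩ | ⟨g, e⟩ | ⟨g, e⟩ | ⟨g, e⟩ | ⟨g, e⟩ | ⟨g, e⟩
  · exact Or.inl g
  · exfalso
    rw [e, cross_self] at hc
    exact lt_irrefl _ hc
  · exfalso
    rw [e] at hc
    simp only [cross] at hc
    have : 0 < 1 - m2 * a - m1 * a := by
      have := g.2.1; have := g.2.2; linarith
    nlinarith [mul_pos this ha]
  · exfalso
    rw [e] at hc
    simp only [cross] at hc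
    nlinarith [mul_pos q1 ha, mul_pos q2 ha]
  · exfalso
    rw [e] at hc
    simp only [cross] at hc
    linarith
  · exact Or.inr g

theorem IsRoof.posU (h : IsRoof v m1 m2 a) (hx : IsOrbit v x) (hp : PosOrbit v x) {m : ℤ}
    (hU : PU m2 a (x (m + 1))) : PB (x m) ∨ PD m1 a (x m) ∨ PR m1 m2 a (x m) := by
  have hm1 := h.hm1
  have hm2 := h.hm2
  have ha := h.ha
  have hw := h.hw
  have q1 : 0 < m1 * a := mul_pos hm1 ha
  have q2 : 0 < m2 * a := mul_pos hm2 ha
  obtain ⟨i, hi⟩ := hx.side m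
  obtain ⟨j, hj, hd⟩ := h.openU hU
  have hc := hp m i j hi hj
  rw [hd] at hc
  rcases h.cls hi with ⟨g, e⟩ | ⟨g, e⟩ | ⟨g, e⟩ | ⟨g, e⟩ | ⟨g, e⟩ | ⟨g, e⟩
  · exact Or.inl g
  · exact Or.inr (Or.inl g)
  · exact Or.inr (Or.inr g)
  · exfalso
    rw [e, cross_self] at hc
    exact lt_irrefl _ hc
  · exfalso
    rw [e] at hc
    simp only [cross] at hc
    linarith
  · exfalso
    rw [e] at hc
    simp only [cross] at hc
    linarith

/-- the four vertical and horizontal sides follow each other cyclically -/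
theorem IsRoof.posC (h : IsRoof v m1 m2 a) (hx : IsOrbit v x) (hp : PosOrbit v x) {m : ℤ}
    (hD : ∀ k, ¬ PD m1 a (x k)) (hU : ∀ k, ¬ PU m2 a (x k)) :
    (PB (x m) → PR m1 m2 a (x (m + 1))) ∧ (PR m1 m2 a (x m) → PT (x (m + 1))) ∧
    (PT (x m) → PL (x (m + 1))) ∧ (PL (x m) → PB (x (m + 1))) := by
  have hm1 := h.hm1
  have hm2 := h.hm2
  have ha := h.ha
  have hw := h.hw
  have q1 : 0 < m1 * a := mul_pos hm1 ha
  have q2 : 0 < m2 * a := mul_pos hm2 ha
  refine ⟨?_, ?_, ?_, ?_⟩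
  · intro hB
    obtain ⟨i, hi, hd⟩ := h.openB hB
    obtain ⟨j, hj⟩ := hx.side (m + 1)
    have hc := hp m i j hi hj
    rw [hd] at hc
    rcases h.cls hj with ⟨g, e⟩ | ⟨g, e⟩ | ⟨g, e⟩ | ⟨g, e⟩ | ⟨g, e⟩ | ⟨g, e⟩
    · exfalso; rw [e] at hc; simp only [cross] at hc; linarith
    · exact absurd g (hD _)
    · exact g
    · exact absurd g (hU _)
    · exfalso; rw [e] at hc; simp only [cross] at hc; linarith
    · exfalso; rw [e] at hc; simp only [cross] at hc; linarith
  · intro hR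
    obtain ⟨i, hi, hd⟩ := h.openR hR
    obtain ⟨j, hj⟩ := hx.side (m + 1)
    have hc := hp m i j hi hj
    rw [hd] at hc
    have : 0 < 1 - m2 * a - m1 * a := by
      have := hR.2.1; have := hR.2.2; linarith
    rcases h.cls hj with ⟨g, e⟩ | ⟨g, e⟩ | ⟨g, e⟩ | ⟨g, e⟩ | ⟨g, e⟩ | ⟨g, e⟩
    · exfalso; rw [e] at hc; simp only [cross] at hc; linarith
    · exact absurd g (hD _)
    · exfalso; rw [e] at hc; simp only [cross] at hc; linarith
    · exact absurd g (hU _)
    · exact g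
    · exfalso; rw [e] at hc; simp only [cross] at hc; linarith
  · intro hT
    obtain ⟨i, hi, hd⟩ := h.openT hT
    obtain ⟨j, hj⟩ := hx.side (m + 1)
    have hc := hp m i j hi hj
    rw [hd] at hc
    rcases h.cls hj with ⟨g, e⟩ | ⟨g, e⟩ | ⟨g, e⟩ | ⟨g, e⟩ | ⟨g, e⟩ | ⟨g, e⟩
    · exfalso; rw [e] at hc; simp only [cross] at hc; linarith
    · exact absurd g (hD _)
    · exfalso; rw [e] at hc; simp only [cross] at hc
      have := g.2.1; have := g.2.2; linarith
    · exact absurd g (hU _)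
    · exfalso; rw [e] at hc; simp only [cross] at hc; linarith
    · exact g
  · intro hL
    obtain ⟨i, hi, hd⟩ := h.openL hL
    obtain ⟨j, hj⟩ := hx.side (m + 1)
    have hc := hp m i j hi hj
    rw [hd] at hc
    rcases h.cls hj with ⟨g, e⟩ | ⟨g, e⟩ | ⟨g, e⟩ | ⟨g, e⟩ | ⟨g, e⟩ | ⟨g, e⟩
    · exact g
    · exact absurd g (hD _)
    · exfalso; rw [e] at hc; simp only [cross] at hc; linarith
    · exact absurd g (hU _)
    · exfalso; rw [e] at hc; simp only [cross] at hc; linarith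
    · exfalso; rw [e] at hc; simp only [cross] at hc; linarith

theorem IsRoof.chordH (h : IsRoof v m1 m2 a) (hv : IsConvexPolygon v) (hx : IsOrbit v x) {m : ℤ}
    (hy : PB (x (m + 1)) ∨ PT (x (m + 1))) : (x (m + 2)).2 = (x m).2 := by
  rcases hy with hy | hy
  · obtain ⟨j, hj, hd⟩ := h.openB hy
    have := (hx.chord hv hj).1
    rw [hd] at this
    simp only [cross, Prod.fst_sub, Prod.snd_sub] at this
    linarith
  · obtain ⟨j, hj, hd⟩ := h.openT hy
    have := (hx.chord hv hj).1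
    rw [hd] at this
    simp only [cross, Prod.fst_sub, Prod.snd_sub] at this
    linarith

theorem IsRoof.chordV (h : IsRoof v m1 m2 a) (hv : IsConvexPolygon v) (hx : IsOrbit v x) {m : ℤ}
    (hy : PL (x (m + 1)) ∨ PR m1 m2 a (x (m + 1))) : (x (m + 2)).1 = (x m).1 := by
  rcases hy with hy | hy
  · obtain ⟨j, hj, hd⟩ := h.openL hy
    have := (hx.chord hv hj).1
    rw [hd] at this
    simp only [cross, Prod.fst_sub, Prod.snd_sub] at this
    linarith
  · obtain ⟨j, hj, hd⟩ := h.openR hy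
    have hpos : 0 < 1 - m2 * a - m1 * a := by
      have := hy.2.1; have := hy.2.2; linarith
    have := (hx.chord hv hj).1
    rw [hd] at this
    simp only [cross, Prod.fst_sub, Prod.snd_sub] at this
    have h0 : (1 - m2 * a - m1 * a) * ((x (m + 2)).1 - (x m).1) = 0 := by linarith
    rcases mul_eq_zero.1 h0 with h1 | h1
    · linarith
    · linarith

theorem IsRoof.four (h : IsRoof v m1 m2 a) (hv : IsConvexPolygon v) (hx : IsOrbit v x) (hp : PosOrbit v x)
    (hD : ∀ k, ¬ PD m1 a (x k)) (hU : ∀ k, ¬ PU m2 a (x k)) (m : ℤ) : x (m + 4) = x m := by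
  have c0 := h.posC hx hp (m := m) hD hU
  have c1 := h.posC hx hp (m := m + 1) hD hU
  have c2 := h.posC hx hp (m := m + 2) hD hU
  have c3 := h.posC hx hp (m := m + 3) hD hU
  rw [show m + 1 + 1 = m + 2 by ring] at c1
  rw [show m + 2 + 1 = m + 3 by ring] at c2
  rw [show m + 3 + 1 = m + 4 by ring] at c3
  have g1H := h.chordH hv hx (m := m)
  have g1V := h.chordV hv hx (m := m)
  have g2H := h.chordH hv hx (m := m + 2)
  have g2V := h.chordV hv hx (m := m + 2)
  rw [show m + 2 + 1 = m + 3 by ring, show m + 2 + 2 = m + 4 by ring] at g2H g2V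
  rcases h.orb hx m with g | g | g | g | g | g
  · have a1 := c0.1 g
    have a2 := c1.2.1 a1
    have a3 := c2.2.2.1 a2
    have a4 := c3.2.2.2 a3
    apply Prod.ext
    · rw [g2V (Or.inl a3), g1V (Or.inr a1)]
    · rw [a4.1, g.1]
  · exact absurd g (hD _)
  · have a1 := c0.2.1 g
    have a2 := c1.2.2.1 a1
    have a3 := c2.2.2.2 a2
    have a4 := c3.1 a3
    apply Prod.ext
    · rw [a4.1, g.1]
    · rw [g2H (Or.inl a3), g1H (Or.inr a1)]
  · exact absurd g (hU _)
  · have a1 := c0.2.2.1 g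
    have a2 := c1.2.2.2 a1
    have a3 := c2.1 a2
    have a4 := c3.2.1 a3
    apply Prod.ext
    · rw [g2V (Or.inr a3), g1V (Or.inl a1)]
    · rw [a4.1, g.1]
  · have a1 := c0.2.2.2 g
    have a2 := c1.1 a1
    have a3 := c2.2.1 a2
    have a4 := c3.2.2.1 a3
    apply Prod.ext
    · rw [a4.1, g.1]
    · rw [g2H (Or.inr a3), g1H (Or.inl a1)]

/-- Roof polygons have property (AP). -/
theorem IsRoof.ap (h : IsRoof v m1 m2 a) (hv : IsConvexPolygon v) : AP v := by
  refine ap_of_pos hv fun x hx hp => ?_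
  by_cases hD : ∃ k, PD m1 a (x k)
  · obtain ⟨k, hk⟩ := hD
    have hk' : PD m1 a (x (k - 1 + 1)) := by rw [sub_add_cancel]; exact hk
    have hs : DS m1 a x (k - 1) ((x (k - 1)).2 - m1 * ((x (k - 1)).1 - 1)) (x k).1 := by
      refine ⟨h.posD hx hp hk', by ring, ?_, hk.2.1, hk.2.2⟩
      rw [sub_add_cancel]
      exact Prod.ext rfl hk.1
    obtain ⟨k', _, hr⟩ := hs.red' h hv hx
    exact hr.rep h hv hx
  · by_cases hU : ∃ k, PU m2 a (x k)
    · obtain ⟨k, hk⟩ := hU
      have hk' : PU m2 a (x (k - 1 + 1)) := by rw [sub_add_cancel]; exact hk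
      have hs : US m1 m2 a x (k - 1) ((x (k - 1)).2 + m2 * ((x (k - 1)).1 - 1)) (x k).1 := by
        refine ⟨h.posU hx hp hk', by ring, ?_, hk.2.1, hk.2.2⟩
        rw [sub_add_cancel]
        exact Prod.ext rfl hk.1
      obtain ⟨k', _, hr⟩ := hs.red' h hv hx
      exact hr.rep h hv hx
    · push Not at hD hU
      refine ⟨0, 4, by norm_num, ?_, ?_⟩
      · exact (h.four hv hx hp hD hU 0).symm
      · have := h.four hv hx hp hD hU 1
        rw [show (1 : ℤ) + 4 = 4 + 1 by ring] at this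
        exact this.symm

end

end SympB
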