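import Pool.Agent.W_93b186_h29.Roof3

/-!
# Normal form of the capped parallelograms
-/

set_option autoImplicit false

namespace SympB

/-- the model hexagon -/
def roofV6 (m1 m2 a : ℝ) : ZMod 6 → ℝ × ℝ :=
  (![(0, 0), (1, 0), (1 + a, m1 * a), (1 + a, 1 - m2 * a), (1, 1), (0, 1)] : Fin 6 → ℝ × ℝ)

/-- the model pentagon -/
def roofV5 (m1 a : ℝ) : ZMod 5 → ℝ × ℝ :=
  (![(0, 0), (1, 0), (1 + a, m1 * a), (1, 1), (0, 1)] : Fin 5 → ℝ × ℝ)

theorem isRoof6 {m1 m2 a : ℝ} (h1 : 0 < m1) (h2 : 0 < m2) (ha : 0 < a) (hw : m1 * a + m2 * a < 1) :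
    IsRoof (roofV6 m1 m2 a) m1 m2 a where
  hm1 := h1
  hm2 := h2
  ha := ha
  hw := hw.le
  B := ⟨0, rfl, rfl⟩
  D := ⟨1, rfl, rfl⟩
  R := fun _ => ⟨2, rfl, rfl⟩
  U := ⟨3, rfl, rfl⟩
  T := ⟨4, rfl, rfl⟩
  L := ⟨5, rfl, rfl⟩
  all := fun i => by
    rcases zmod6 i with rfl | rfl | rfl | rfl | rfl | rfl
    · exact Or.inl ⟨rfl, rfl⟩
    · exact Or.inr (Or.inl ⟨rfl, rfl⟩)
    · exact Or.inr (Or.inr (Or.inl ⟨rfl, rfl, hw⟩))
    · exact Or.inr (Or.inr (Or.inr (Or.inl ⟨rfl, rfl⟩)))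
    · exact Or.inr (Or.inr (Or.inr (Or.inr (Or.inl ⟨rfl, rfl⟩))))
    · exact Or.inr (Or.inr (Or.inr (Or.inr (Or.inr ⟨rfl, rfl⟩))))

theorem isRoof5 {m1 m2 a : ℝ} (h1 : 0 < m1) (h2 : 0 < m2) (ha : 0 < a) (hw : m1 * a + m2 * a = 1) :
    IsRoof (roofV5 m1 a) m1 m2 a where
  hm1 := h1
  hm2 := h2
  ha := ha
  hw := hw.le
  B := ⟨0, rfl, rfl⟩
  D := ⟨1, rfl, rfl⟩
  R := fun h => absurd hw h.ne
  U := ⟨2, by
    show ((1 + a, m1 * a) : ℝ × ℝ) = (1 + a, 1 - m2 * a)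
    rw [← hw]; simp, rfl⟩
  T := ⟨3, rfl, rfl⟩
  L := ⟨4, rfl, rfl⟩
  all := fun i => by
    rcases zmod5 i with rfl | rfl | rfl | rfl | rfl
    · exact Or.inl ⟨rfl, rfl⟩
    · exact Or.inr (Or.inl ⟨rfl, rfl⟩)
    · refine Or.inr (Or.inr (Or.inr (Or.inl ⟨?_, rfl⟩)))
      show ((1 + a, m1 * a) : ℝ × ℝ) = (1 + a, 1 - m2 * a)
      rw [← hw]; simp
    · exact Or.inr (Or.inr (Or.inr (Or.inr (Or.inl ⟨rfl, rfl⟩))))
    · exact Or.inr (Or.inr (Or.inr (Or.inr (Or.inr ⟨rfl, rfl⟩))))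

theorem affMap_cross (e f w : ℝ × ℝ) (h : cross e f ≠ 0) (p q r s : ℝ × ℝ) :
    cross (affMap e f w h p - affMap e f w h q) (affMap e f w h r - affMap e f w h s) =
      cross e f * cross (p - q) (r - s) := by
  simp only [affMap_apply]
  simp [cross]
  ring

theorem convex_of_aff {n : ℕ} {w r : ZMod n → ℝ × ℝ} (hw : IsConvexPolygon w) {e f o : ℝ × ℝ}
    (h : cross e f ≠ 0) (hpos : 0 < cross e f) (hr : ∀ i, w i = affMap e f o h (r i)) : IsConvexPolygon r := by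
  refine ⟨hw.1, fun i j h1 h2 => ?_⟩
  have := hw.2 i j h1 h2
  rw [hr, hr, hr, affMap_cross] at this
  exact (mul_pos_iff_of_pos_left hpos).1 this

/-- coordinates with respect to `e, f` -/
theorem coords {e f : ℝ × ℝ} (h : cross e f ≠ 0) (u : ℝ × ℝ) :
    u = (cross u f / cross e f) • e + (cross e u / cross e f) • f := by
  have h' := h
  simp only [cross] at h'
  apply Prod.ext
  · simp only [cross, Prod.fst_add, Prod.smul_fst, smul_eq_mul]
    rw [div_mul_eq_mul_div, div_mul_eq_mul_div, ← add_div, eq_div_iff h']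
    ring
  · simp only [cross, Prod.snd_add, Prod.smul_snd, smul_eq_mul]
    rw [div_mul_eq_mul_div, div_mul_eq_mul_div, ← add_div, eq_div_iff h']
    ring

theorem hex_roof0 {w : ZMod 6 → ℝ × ℝ} (hw : IsConvexPolygon w) (hp : w 4 + w 0 = w 5 + w 1)
    (hc : cross (w 0 - w 5) (w 3 - w 2) = 0) : AP w := by
  have c05 : 0 < cross (w 1 - w 0) (w 5 - w 0) := hw.2 0 5 (by decide) (by decide)
  have c02 : 0 < cross (w 1 - w 0) (w 2 - w 0) := hw.2 0 2 (by decide) (by decide)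
  have c03 : 0 < cross (w 1 - w 0) (w 3 - w 0) := hw.2 0 3 (by decide) (by decide)
  have c42 : 0 < cross (w 5 - w 4) (w 2 - w 4) := hw.2 4 2 (by decide) (by decide)
  have c43 : 0 < cross (w 5 - w 4) (w 3 - w 4) := hw.2 4 3 (by decide) (by decide)
  have c14 : 0 < cross (w 2 - w 1) (w 4 - w 1) := hw.2 1 4 (by decide) (by decide)
  have c20 : 0 < cross (w 3 - w 2) (w 0 - w 2) := hw.2 2 0 (by decide) (by decide)
  obtain ⟨e, he⟩ : ∃ e, w 1 - w 0 = e := ⟨_, rfl⟩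
  obtain ⟨f, hf⟩ : ∃ f, w 5 - w 0 = f := ⟨_, rfl⟩
  rw [he, hf] at c05
  have hef : cross e f ≠ 0 := c05.ne'
  obtain ⟨al, be, hw2⟩ : ∃ al be : ℝ, w 2 - w 0 = al • e + be • f := ⟨_, _, coords hef _⟩
  obtain ⟨al', be', hw3⟩ : ∃ al be : ℝ, w 3 - w 0 = al • e + be • f := ⟨_, _, coords hef _⟩
  have e1 : w 1 = w 0 + e := by rw [← he]; abel
  have e5 : w 5 = w 0 + f := by rw [← hf]; abel
  have e4 : w 4 = w 0 + e + f := by
    have : w 4 = (w 4 + w 0) - w 0 := by abel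
    rw [this, hp, e1, e5]; abel
  have e2 : w 2 = w 0 + (al • e + be • f) := by rw [← hw2]; abel
  have e3 : w 3 = w 0 + (al' • e + be' • f) := by rw [← hw3]; abel
  obtain ⟨c, hcdef⟩ : ∃ c, cross e f = c := ⟨_, rfl⟩
  have hfe : cross f e = -c := by rw [cross_comm, hcdef]
  have k1 : cross (w 0 - w 5) (w 3 - w 2) = (al' - al) * c := by
    rw [e5, e3, e2, ← hcdef]; simp [cross]; ring
  have k2 : cross (w 1 - w 0) (w 2 - w 0) = be * c := by
    rw [e1, e2, ← hcdef]; simp [cross]; ring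
  have k3 : cross (w 1 - w 0) (w 3 - w 0) = be' * c := by
    rw [e1, e3, ← hcdef]; simp [cross]; ring
  have k4 : cross (w 5 - w 4) (w 3 - w 4) = (1 - be') * c := by
    rw [e5, e4, e3, ← hcdef]; simp [cross]; ring
  have k5 : cross (w 2 - w 1) (w 4 - w 1) = (al - 1) * c := by
    rw [e2, e1, e4, ← hcdef]; simp [cross]; ring
  have k6 : cross (w 3 - w 2) (w 0 - w 2) = ((be' - be) * al - (al' - al) * be) * c := by
    rw [e3, e2, ← hcdef]; simp [cross]; ring
  rw [hcdef] at c05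
  rw [k1] at hc
  rw [k2] at c02
  rw [k3] at c03
  rw [k4] at c43
  rw [k5] at c14
  rw [k6] at c20
  have ha' : al' = al := by
    rcases mul_eq_zero.1 hc with h | h
    · linarith
    · exact absurd h c05.ne'
  subst ha'
  have b0 : 0 < be := (mul_pos_iff_of_pos_right c05).1 c02
  have b1 : 0 < 1 - be' := (mul_pos_iff_of_pos_right c05).1 c43
  have b2 : 0 < al' - 1 := (mul_pos_iff_of_pos_right c05).1 c14
  have b3 : 0 < (be' - be) * al' - (al' - al') * be := (mul_pos_iff_of_pos_right c05).1 c20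
  have b4 : 0 < be' - be := by
    have : 0 < (be' - be) * al' := by linarith
    exact (mul_pos_iff_of_pos_right (by linarith)).1 this
  have m1a : be / (al' - 1) * (al' - 1) = be := by field_simp
  have m2a : (1 - be') / (al' - 1) * (al' - 1) = 1 - be' := by field_simp
  have hroof := isRoof6 (m1 := be / (al' - 1)) (m2 := (1 - be') / (al' - 1)) (a := al' - 1)
    (div_pos b0 b2) (div_pos b1 b2) b2 (by rw [m1a, m2a]; linarith)
  have haff : ∀ i, w i = affMap e f (w 0) hef (roofV6 (be / (al' - 1)) ((1 - be') / (al' - 1)) (al' - 1) i) := by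
    intro i
    rcases zmod6 i with rfl | rfl | rfl | rfl | rfl | rfl
    · rw [affMap_apply]
      show w 0 = w 0 + ((0 : ℝ) • e + (0 : ℝ) • f)
      module
    · rw [affMap_apply]
      show w 1 = w 0 + ((1 : ℝ) • e + (0 : ℝ) • f)
      rw [e1]; module
    · rw [affMap_apply]
      show w 2 = w 0 + ((1 + (al' - 1)) • e + (be / (al' - 1) * (al' - 1)) • f)
      rw [e2, m1a]; module
    · rw [affMap_apply]
      show w 3 = w 0 + ((1 + (al' - 1)) • e + (1 - (1 - be') / (al' - 1) * (al' - 1)) • f)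
      rw [e3, m2a]; module
    · rw [affMap_apply]
      show w 4 = w 0 + ((1 : ℝ) • e + (1 : ℝ) • f)
      rw [e4]; module
    · rw [affMap_apply]
      show w 5 = w 0 + ((0 : ℝ) • e + (1 : ℝ) • f)
      rw [e5]; module
  have hconv := convex_of_aff hw hef (by rw [hcdef]; exact c05) haff
  have hap := hroof.ap hconv
  have : w = fun i => affMap e f (w 0) hef (roofV6 (be / (al' - 1)) ((1 - be') / (al' - 1)) (al' - 1) i) :=
    funext haff
  rw [this]
  exact (ap_affine _ _).2 hap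

theorem pent_roof0 {w : ZMod 5 → ℝ × ℝ} (hw : IsConvexPolygon w) (hp : w 3 + w 0 = w 4 + w 1) : AP w := by
  have c04 : 0 < cross (w 1 - w 0) (w 4 - w 0) := hw.2 0 4 (by decide) (by decide)
  have c02 : 0 < cross (w 1 - w 0) (w 2 - w 0) := hw.2 0 2 (by decide) (by decide)
  have c32 : 0 < cross (w 4 - w 3) (w 2 - w 3) := hw.2 3 2 (by decide) (by decide)
  have c13 : 0 < cross (w 2 - w 1) (w 3 - w 1) := hw.2 1 3 (by decide) (by decide)
  obtain ⟨e, he⟩ : ∃ e, w 1 - w 0 = e := ⟨_, rfl⟩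
  obtain ⟨f, hf⟩ : ∃ f, w 4 - w 0 = f := ⟨_, rfl⟩
  rw [he, hf] at c04
  have hef : cross e f ≠ 0 := c04.ne'
  obtain ⟨al, be, hw2⟩ : ∃ al be : ℝ, w 2 - w 0 = al • e + be • f := ⟨_, _, coords hef _⟩
  have e1 : w 1 = w 0 + e := by rw [← he]; abel
  have e4 : w 4 = w 0 + f := by rw [← hf]; abel
  have e3 : w 3 = w 0 + e + f := by
    have : w 3 = (w 3 + w 0) - w 0 := by abel
    rw [this, hp, e1, e4]; abel
  have e2 : w 2 = w 0 + (al • e + be • f) := by rw [← hw2]; abel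
  obtain ⟨c, hcdef⟩ : ∃ c, cross e f = c := ⟨_, rfl⟩
  have k2 : cross (w 1 - w 0) (w 2 - w 0) = be * c := by
    rw [e1, e2, ← hcdef]; simp [cross]; ring
  have k4 : cross (w 4 - w 3) (w 2 - w 3) = (1 - be) * c := by
    rw [e4, e3, e2, ← hcdef]; simp [cross]; ring
  have k5 : cross (w 2 - w 1) (w 3 - w 1) = (al - 1) * c := by
    rw [e2, e1, e3, ← hcdef]; simp [cross]; ring
  rw [hcdef] at c04
  rw [k2] at c02
  rw [k4] at c32
  rw [k5] at c13
  have b0 : 0 < be := (mul_pos_iff_of_pos_right c04).1 c02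
  have b1 : 0 < 1 - be := (mul_pos_iff_of_pos_right c04).1 c32
  have b2 : 0 < al - 1 := (mul_pos_iff_of_pos_right c04).1 c13
  have m1a : be / (al - 1) * (al - 1) = be := by field_simp
  have m2a : (1 - be) / (al - 1) * (al - 1) = 1 - be := by field_simp
  have hroof := isRoof5 (m1 := be / (al - 1)) (m2 := (1 - be) / (al - 1)) (a := al - 1)
    (div_pos b0 b2) (div_pos b1 b2) b2 (by rw [m1a, m2a]; ring)
  have haff : ∀ i, w i = affMap e f (w 0) hef (roofV5 (be / (al - 1)) (al - 1) i) := by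
    intro i
    rcases zmod5 i with rfl | rfl | rfl | rfl | rfl
    · rw [affMap_apply]
      show w 0 = w 0 + ((0 : ℝ) • e + (0 : ℝ) • f)
      module
    · rw [affMap_apply]
      show w 1 = w 0 + ((1 : ℝ) • e + (0 : ℝ) • f)
      rw [e1]; module
    · rw [affMap_apply]
      show w 2 = w 0 + ((1 + (al - 1)) • e + (be / (al - 1) * (al - 1)) • f)
      rw [e2, m1a]; module
    · rw [affMap_apply]
      show w 3 = w 0 + ((1 : ℝ) • e + (1 : ℝ) • f)
      rw [e3]; module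
    · rw [affMap_apply]
      show w 4 = w 0 + ((0 : ℝ) • e + (1 : ℝ) • f)
      rw [e4]; module
  have hconv := convex_of_aff hw hef (by rw [hcdef]; exact c04) haff
  have hap := hroof.ap hconv
  have : w = fun i => affMap e f (w 0) hef (roofV5 (be / (al - 1)) (al - 1) i) := funext haff
  rw [this]
  exact (ap_affine _ _).2 hap

/-- Convex pentagons in which four consecutive vertices form a parallelogram. -/
theorem capped_pentagons (v : ZMod 5 → ℝ × ℝ) (hv : IsConvexPolygon v)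
    (h : ∃ i, v i + v (i + 2) = v (i + 1) + v (i + 3)) : AP v := by
  obtain ⟨i, h⟩ := h
  rw [← ap_shift v (i + 2)]
  refine pent_roof0 (hv.shift (i + 2)) ?_
  show v (3 + (i + 2)) + v (0 + (i + 2)) = v (4 + (i + 2)) + v (1 + (i + 2))
  have c : ∀ i : ZMod 5, 3 + (i + 2) = i ∧ 0 + (i + 2) = i + 2 ∧ 4 + (i + 2) = i + 1 ∧ 1 + (i + 2) = i + 3 := by
    decide
  obtain ⟨c1, c2, c3, c4⟩ := c i
  rw [c1, c2, c3, c4, h]

/-- Convex hexagons in which four consecutive vertices form a parallelogram and the side opposite to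
the middle side of these is parallel to it. -/
theorem capped_hexagons (v : ZMod 6 → ℝ × ℝ) (hv : IsConvexPolygon v)
    (h : ∃ i, v i + v (i + 2) = v (i + 1) + v (i + 3) ∧
      cross (v (i + 2) - v (i + 1)) (v (i + 5) - v (i + 4)) = 0) : AP v := by
  obtain ⟨i, h, h'⟩ := h
  rw [← ap_shift v (i + 2)]
  have c : ∀ i : ZMod 6, 4 + (i + 2) = i ∧ 0 + (i + 2) = i + 2 ∧ 5 + (i + 2) = i + 1 ∧ 1 + (i + 2) = i + 3 ∧
      2 + (i + 2) = i + 4 ∧ 3 + (i + 2) = i + 5 := by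
    decide
  obtain ⟨c1, c2, c3, c4, c5, c6⟩ := c i
  refine hex_roof0 (hv.shift (i + 2)) ?_ ?_
  · show v (4 + (i + 2)) + v (0 + (i + 2)) = v (5 + (i + 2)) + v (1 + (i + 2))
    rw [c1, c2, c3, c4, h]
  · show cross (v (0 + (i + 2)) - v (5 + (i + 2))) (v (3 + (i + 2)) - v (2 + (i + 2))) = 0
    rw [c2, c3, c5, c6, h']

end SympB
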