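import Pool.Agent.W_93b186_h29.RoofMain

/-!
# Polygons with at most three side directions and few sides

(a) such a convex polygon has at most six sides; (b) triangles, (c) quadrilaterals with two parallel
sides have property (AP).
-/

set_option autoImplicit false

namespace SympB

section
variable {n : ℕ} {v : ZMod n → ℝ × ℝ}

theorem antipar_of_par (hv : IsConvexPolygon v) {d : ℝ × ℝ} (hd : d ≠ 0) {i j : ZMod n}
    (hi : cross d (v (i + 1) - v i) = 0) (hj : cross d (v (j + 1) - v j) = 0) (hij : j ≠ i) :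
    ∃ lam : ℝ, 0 < lam ∧ v (j + 1) - v j = -(lam • (v (i + 1) - v i)) := by
  refine antipar hv hd hi hj hij ?_ ?_
  · rintro rfl
    rw [show i + 1 + 1 = i + 2 by ring] at hj
    exact not_par_adj hv hv.two_ne hv.one_ne hd hi hj
  · rintro rfl
    rw [show j + 1 + 1 = j + 2 by ring] at hi
    exact not_par_adj hv hv.two_ne hv.one_ne hd hj hi

theorem three_par (hv : IsConvexPolygon v) {d : ℝ × ℝ} (hd : d ≠ 0) {i j k : ZMod n}
    (hi : cross d (v (i + 1) - v i) = 0) (hj : cross d (v (j + 1) - v j) = 0)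
    (hk : cross d (v (k + 1) - v k) = 0) (hij : j ≠ i) (hik : k ≠ i) (hjk : k ≠ j) : False := by
  obtain ⟨a, ha, h1⟩ := antipar_of_par hv hd hi hj hij
  obtain ⟨b, hb, h2⟩ := antipar_of_par hv hd hi hk hik
  obtain ⟨c, hc, h3⟩ := antipar_of_par hv hd hj hk hjk
  rw [h1, h2] at h3
  have h0 : (b + c * a) • (v (i + 1) - v i) = 0 := by
    have h4 : b • (v (i + 1) - v i) = -((c * a) • (v (i + 1) - v i)) := by
      have : b • (v (i + 1) - v i) = -(-(b • (v (i + 1) - v i))) := by simp
      rw [this, h3, mul_smul]; simp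
    rw [add_smul, h4]; simp
  rcases smul_eq_zero.1 h0 with h | h
  · have := mul_pos hc ha
    linarith
  · exact hv.side_ne i (sub_eq_zero.1 h).symm

/-- (a) a convex polygon with at most three side directions has at most six sides -/
theorem le_six (hv : IsConvexPolygon v) (hd : AtMostThreeDirections v) : n ≤ 6 := by
  by_contra hn
  push Not at hn
  obtain ⟨d, hd⟩ := hd
  choose k hk0 hk using hd
  have : NeZero n := ⟨by omega⟩
  have hcard : (Finset.univ : Finset (Fin 3)).card * 2 < (Finset.univ : Finset (ZMod n)).card := by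
    rw [Finset.card_univ, Finset.card_univ, Fintype.card_fin, ZMod.card]
    omega
  obtain ⟨y, _, hy⟩ := Finset.exists_lt_card_fiber_of_mul_lt_card_of_maps_to
    (f := k) (fun a _ => Finset.mem_univ (k a)) hcard
  obtain ⟨a, b, c, ha, hb, hc, hab, hac, hbc⟩ := Finset.two_lt_card_iff.1 hy
  simp only [Finset.mem_filter, Finset.mem_univ, true_and] at ha hb hc
  have h1 := hk a
  have h2 := hk b
  have h3 := hk c
  have h0 := hk0 a
  rw [ha] at h1 h0
  rw [hb] at h2
  rw [hc] at h3
  exact three_par hv h0 h1 h2 h3 hab.symm hac.symm hbc.symm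

end

/-- the model triangle -/
def triV : ZMod 3 → ℝ × ℝ := (![(0, 0), (1, 0), (0, 1)] : Fin 3 → ℝ × ℝ)

/-- the model trapezoid -/
def trapV (p : ℝ) : ZMod 4 → ℝ × ℝ := (![(0, 0), (1 - p, 0), (1 - p, p), (0, 1)] : Fin 4 → ℝ × ℝ)

theorem zmod3 : ∀ i : ZMod 3, i = 0 ∨ i = 1 ∨ i = 2 := by decide
theorem zmod4 : ∀ i : ZMod 4, i = 0 ∨ i = 1 ∨ i = 2 ∨ i = 3 := by decide

theorem triV0 : triV 0 = (0, 0) := rfl
theorem triV1 : triV 1 = (1, 0) := rfl
theorem triV2 : triV 2 = (0, 1) := rfl
theorem trapV0 (p : ℝ) : trapV p 0 = (0, 0) := rfl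
theorem trapV1 (p : ℝ) : trapV p 1 = (1 - p, 0) := rfl
theorem trapV2 (p : ℝ) : trapV p 2 = (1 - p, p) := rfl
theorem trapV3 (p : ℝ) : trapV p 3 = (0, 1) := rfl

theorem isModel_tri : IsModel triV 1 0 0 0 := by
  have hpar : Par 1 0 0 0 := ⟨le_rfl, le_rfl, le_rfl, by norm_num, by norm_num, by norm_num, by norm_num⟩
  refine isModel_of_sides hpar ?_ ?_
  · intro i
    rcases zmod3 i with rfl | rfl | rfl
    · refine ⟨1, ?_, ?_, ?_⟩
      · rw [show (0 : ZMod 3) + 1 = 1 by decide, triV0, triV1]; rfl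
      · left; rfl
      · intro j hj
        rw [show (0 : ZMod 3) + 1 = 1 by decide, triV0, triV1]
        fin_cases j <;> first
          | exact absurd rfl hj
          | (refine ⟨?_, ?_, ?_, ?_, ?_⟩ <;> simp)
    · refine ⟨2, ?_, ?_, ?_⟩
      · rw [show (1 : ZMod 3) + 1 = 2 by decide, triV1, triV2]; simp
      · left; rw [triV1]; simp
      · intro j hj
        rw [show (1 : ZMod 3) + 1 = 2 by decide, triV1, triV2]
        fin_cases j <;> first
          | exact absurd rfl hj
          | (refine ⟨?_, ?_, ?_, ?_, ?_⟩ <;> simp)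
    · refine ⟨0, ?_, ?_, ?_⟩
      · rw [show (2 : ZMod 3) + 1 = 0 by decide, triV2, triV0]; rfl
      · left; rw [triV2]; rfl
      · intro j hj
        rw [show (2 : ZMod 3) + 1 = 0 by decide, triV2, triV0]
        fin_cases j <;> first
          | exact absurd rfl hj
          | (refine ⟨?_, ?_, ?_, ?_, ?_⟩ <;> simp)
  · intro k z hz
    obtain ⟨h1, h2⟩ := hz
    have g0 := h2 0
    have g1 := h2 1
    have g2 := h2 2
    fin_cases k
    · simp at h1 g1 g2
      rcases h1 with h1 | h1
      · refine ⟨2, mem_open_of (l := 1) (k := 0) (j := 1) (by decide) ?_ ?_ ?_⟩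
        · rw [show (2 : ZMod 3) + 1 = 0 by decide, triV2, triV0]; rfl
        · rw [triV2]; exact h1
        · right
          rw [show (2 : ZMod 3) + 1 = 0 by decide, triV2, triV0]
          simp; constructor <;> linarith
      · exfalso; linarith
    · simp at h1 g0 g2
      rcases h1 with h1 | h1
      · refine ⟨0, mem_open_of (l := 1) (k := 1) (j := 0) (by decide) ?_ ?_ ?_⟩
        · rw [show (0 : ZMod 3) + 1 = 1 by decide, triV0, triV1]; rfl
        · rw [triV0]; exact h1
        · left
          rw [show (0 : ZMod 3) + 1 = 1 by decide, triV0, triV1]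
          simp; constructor <;> linarith
      · exfalso; linarith
    · simp at h1 g0 g1
      rcases h1 with h1 | h1
      · refine ⟨1, mem_open_of (l := 1) (k := 2) (j := 0) (by decide) ?_ ?_ ?_⟩
        · rw [show (1 : ZMod 3) + 1 = 2 by decide, triV1, triV2]; simp
        · rw [triV1]; simp; linarith
        · right
          rw [show (1 : ZMod 3) + 1 = 2 by decide, triV1, triV2]
          simp; constructor <;> linarith
      · exfalso; linarith

theorem isModel_trap {p : ℝ} (h0 : 0 < p) (hp1 : p < 1) : IsModel (trapV p) 1 p 0 0 := by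
  have hpar : Par 1 p 0 0 := ⟨h0.le, le_rfl, le_rfl, by linarith, by linarith, by norm_num, by norm_num⟩
  refine isModel_of_sides hpar ?_ ?_
  · intro i
    rcases zmod4 i with rfl | rfl | rfl | rfl
    · refine ⟨1, ?_, ?_, ?_⟩
      · rw [show (0 : ZMod 4) + 1 = 1 by decide, trapV0, trapV1]; rfl
      · left; rfl
      · intro j hj
        rw [show (0 : ZMod 4) + 1 = 1 by decide, trapV0, trapV1]
        fin_cases j <;> first
          | exact absurd rfl hj
          | (refine ⟨?_, ?_, ?_, ?_, ?_⟩ <;> (try simp) <;> first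
              | linarith
              | (intro h; linarith))
    · refine ⟨0, ?_, ?_, ?_⟩
      · rw [show (1 : ZMod 4) + 1 = 2 by decide, trapV1, trapV2]; rfl
      · right; rw [trapV1]; simp
      · intro j hj
        rw [show (1 : ZMod 4) + 1 = 2 by decide, trapV1, trapV2]
        fin_cases j <;> first
          | exact absurd rfl hj
          | (refine ⟨?_, ?_, ?_, ?_, ?_⟩ <;> (try simp) <;> first
              | linarith
              | (intro h; linarith))
    · refine ⟨2, ?_, ?_, ?_⟩
      · rw [show (2 : ZMod 4) + 1 = 3 by decide, trapV2, trapV3]; simp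
      · left; rw [trapV2]; simp
      · intro j hj
        rw [show (2 : ZMod 4) + 1 = 3 by decide, trapV2, trapV3]
        fin_cases j <;> first
          | exact absurd rfl hj
          | (refine ⟨?_, ?_, ?_, ?_, ?_⟩ <;> (try simp) <;> first
              | linarith
              | (intro h; linarith))
    · refine ⟨0, ?_, ?_, ?_⟩
      · rw [show (3 : ZMod 4) + 1 = 0 by decide, trapV3, trapV0]; rfl
      · left; rw [trapV3]; rfl
      · intro j hj
        rw [show (3 : ZMod 4) + 1 = 0 by decide, trapV3, trapV0]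
        fin_cases j <;> first
          | exact absurd rfl hj
          | (refine ⟨?_, ?_, ?_, ?_, ?_⟩ <;> (try simp) <;> first
              | linarith
              | (intro h; linarith))
  · intro k z hz
    obtain ⟨h1, h2⟩ := hz
    have g0 := h2 0
    have g1 := h2 1
    have g2 := h2 2
    fin_cases k
    · simp at h1 g1 g2
      rcases h1 with h1 | h1
      · refine ⟨3, mem_open_of (l := 1) (k := 0) (j := 1) (by decide) ?_ ?_ ?_⟩
        · rw [show (3 : ZMod 4) + 1 = 0 by decide, trapV3, trapV0]; rfl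
        · rw [trapV3]; exact h1
        · right
          rw [show (3 : ZMod 4) + 1 = 0 by decide, trapV3, trapV0]
          simp; constructor <;> linarith
      · refine ⟨1, mem_open_of (l := 1) (k := 0) (j := 1) (by decide) ?_ ?_ ?_⟩
        · rw [show (1 : ZMod 4) + 1 = 2 by decide, trapV1, trapV2]; rfl
        · rw [trapV1]; simp; linarith
        · left
          rw [show (1 : ZMod 4) + 1 = 2 by decide, trapV1, trapV2]
          simp; constructor <;> linarith
    · simp at h1 g0 g2
      rcases h1 with h1 | h1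
      · refine ⟨0, mem_open_of (l := 1) (k := 1) (j := 0) (by decide) ?_ ?_ ?_⟩
        · rw [show (0 : ZMod 4) + 1 = 1 by decide, trapV0, trapV1]; rfl
        · rw [trapV0]; exact h1
        · left
          rw [show (0 : ZMod 4) + 1 = 1 by decide, trapV0, trapV1]
          simp; constructor <;> linarith
      · exfalso; linarith
    · simp at h1 g0 g1
      rcases h1 with h1 | h1
      · refine ⟨2, mem_open_of (l := 1) (k := 2) (j := 0) (by decide) ?_ ?_ ?_⟩
        · rw [show (2 : ZMod 4) + 1 = 3 by decide, trapV2, trapV3]; simp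
        · rw [trapV2]; simp; linarith
        · right
          rw [show (2 : ZMod 4) + 1 = 3 by decide, trapV2, trapV3]
          simp; constructor <;> linarith
      · exfalso; linarith

/-- (b) triangles -/
theorem ap_triangle (v : ZMod 3 → ℝ × ℝ) (hv : IsConvexPolygon v) : AP v := by
  have c02 : 0 < cross (v 1 - v 0) (v 2 - v 0) := hv.2 0 2 (by decide) (by decide)
  have hef : cross (v 1 - v 0) (v 2 - v 0) ≠ 0 := c02.ne'
  have haff : ∀ i, v i = affMap (v 1 - v 0) (v 2 - v 0) (v 0) hef (triV i) := by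
    intro i
    rcases zmod3 i with rfl | rfl | rfl
    · rw [affMap_apply, triV0]; module
    · rw [affMap_apply, triV1]; module
    · rw [affMap_apply, triV2]; module
  have hap : AP triV := by
    have hf : FinL 1 0 0 0 := by
      have := finL_pentagon (p := 0) (q := 0) (t := 1) le_rfl le_rfl one_pos
      simpa using this
    exact isModel_tri.ap_of_fin hf
  have : v = fun i => affMap (v 1 - v 0) (v 2 - v 0) (v 0) hef (triV i) := funext haff
  rw [this]
  exact (ap_affine _ _).2 hap

theorem ap_trap0 {w : ZMod 4 → ℝ × ℝ} (hw : IsConvexPolygon w) {p : ℝ} (h0 : 0 < p) (h1 : p < 1)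
    (h : w 2 - w 1 = p • (w 3 - w 0)) : AP w := by
  have c03 : 0 < cross (w 1 - w 0) (w 3 - w 0) := hw.2 0 3 (by decide) (by decide)
  have hp : 0 < 1 - p := by linarith
  have hef : cross ((1 - p)⁻¹ • (w 1 - w 0)) (w 3 - w 0) ≠ 0 := by
    rw [cross_smul_left]
    exact (mul_pos (inv_pos.2 hp) c03).ne'
  have e2 : w 2 = w 1 + p • (w 3 - w 0) := by rw [← h]; abel
  have haff : ∀ i, w i = affMap ((1 - p)⁻¹ • (w 1 - w 0)) (w 3 - w 0) (w 0) hef (trapV p i) := by
    have hinv : (1 - p) * (1 - p)⁻¹ = 1 := mul_inv_cancel₀ hp.ne'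
    intro i
    rcases zmod4 i with rfl | rfl | rfl | rfl
    · rw [affMap_apply, trapV0]; module
    · rw [affMap_apply, trapV1]
      simp only [smul_smul, hinv]; module
    · rw [affMap_apply, trapV2, e2]
      simp only [smul_smul, hinv]; module
    · rw [affMap_apply, trapV3]; module
  have hap : AP (trapV p) := by
    have hf : FinL 1 p 0 0 := by
      have := finL_pentagon (p := p) (q := 0) (t := 1 - p) h0.le le_rfl hp
      rwa [show p + 0 + (1 - p) = 1 by ring] at this
    exact (isModel_trap h0 h1).ap_of_fin hf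
  have : w = fun i => affMap ((1 - p)⁻¹ • (w 1 - w 0)) (w 3 - w 0) (w 0) hef (trapV p i) := funext haff
  rw [this]
  exact (ap_affine _ _).2 hap

/-- parallelograms -/
theorem ap_parallelogram {w : ZMod 4 → ℝ × ℝ} (hw : IsConvexPolygon w) (h : w 2 - w 1 = w 3 - w 0) :
    AP w := by
  have hopp : ∀ i : ZMod 4, w (i + 2 + 1) - w (i + 2) = -(w (i + 1) - w i) := by
    intro i
    have h' : w 2 - w 3 = w 1 - w 0 := by
      have : w 2 - w 3 = (w 2 - w 1) - (w 3 - w 0) + (w 1 - w 0) := by abel
      rw [this, h]; simp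
    rcases zmod4 i with rfl | rfl | rfl | rfl
    · show w 3 - w 2 = -(w 1 - w 0)
      rw [← h']; abel
    · show w 0 - w 3 = -(w 2 - w 1)
      rw [h]; abel
    · show w 1 - w 0 = -(w 3 - w 2)
      rw [← h']; abel
    · show w 2 - w 1 = -(w 0 - w 3)
      rw [h]; abel
  have hadj : ∀ i : ZMod 4, 0 < cross (w (i + 1) - w i) (w (i + 1 + 1) - w (i + 1)) := by
    intro i
    have := cross_adj hw hw.two_ne hw.one_ne i
    rwa [show i + 1 + 1 = i + 2 by ring]
  refine ap_of_pos hw fun x hx hp => ?_
  have hnext : ∀ (m : ℤ) (i : ZMod 4), x m ∈ openSegment ℝ (w i) (w (i + 1)) →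
      x (m + 1) ∈ openSegment ℝ (w (i + 1)) (w (i + 1 + 1)) := by
    intro m i hi
    obtain ⟨j, hj⟩ := hx.side (m + 1)
    have hc := hp m i j hi hj
    have hj4 : j = i ∨ j = i + 1 ∨ j = i + 2 ∨ j = i + 3 := by
      exact (by decide : ∀ j i : ZMod 4, j = i ∨ j = i + 1 ∨ j = i + 2 ∨ j = i + 3) j i
    rcases hj4 with rfl | rfl | rfl | rfl
    · rw [cross_self] at hc; exact absurd hc (lt_irrefl _)
    · exact hj
    · rw [hopp, cross_comm] at hc
      have : cross (-(w (i + 1) - w i)) (w (i + 1) - w i) = 0 := by simp [cross]; ring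
      rw [this] at hc
      exact absurd hc (by norm_num)
    · exfalso
      have h3 : w (i + 3 + 1) - w (i + 3) = -(w (i + 1 + 1) - w (i + 1)) := by
        have := hopp (i + 1)
        rwa [show i + 1 + 2 = i + 3 by ring] at this
      rw [h3] at hc
      have h4 := hadj i
      have : cross (w (i + 1) - w i) (-(w (i + 1 + 1) - w (i + 1))) =
          - cross (w (i + 1) - w i) (w (i + 1 + 1) - w (i + 1)) := by simp [cross]; ring
      rw [this] at hc
      linarith
  have hfour : ∀ m : ℤ, x (m + 4) = x m := by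
    intro m
    obtain ⟨i, hi⟩ := hx.side m
    have h1 := hnext m i hi
    have h2 := hnext (m + 1) (i + 1) h1
    have h3 := hnext (m + 1 + 1) (i + 1 + 1) h2
    have h4 := hnext (m + 1 + 1 + 1) (i + 1 + 1 + 1) h3
    have c1 := (hx.chord hw h1).1
    have c2 := (hx.chord hw (m := m + 2) (j := i + 1 + 1 + 1) (by
      rw [show m + 2 + 1 = m + 1 + 1 + 1 by ring]; exact h3)).1
    rw [show m + 2 + 2 = m + 4 by ring] at c2
    have e3 : w (i + 1 + 1 + 1 + 1) - w (i + 1 + 1 + 1) = -(w (i + 1 + 1) - w (i + 1)) := by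
      have := hopp (i + 1)
      rwa [show i + 1 + 2 = i + 1 + 1 + 1 by ring] at this
    rw [e3] at c2
    -- on the same line
    have e4 : i + 1 + 1 + 1 + 1 = i := (by decide : ∀ i : ZMod 4, i + 1 + 1 + 1 + 1 = i) i
    rw [show m + 1 + 1 + 1 + 1 = m + 4 by ring, e4] at h4
    have l1 := cross_open (openSegment_subset_segment ℝ _ _ hi)
    have l2 := cross_open (openSegment_subset_segment ℝ _ _ h4)
    have s1 : cross (w (i + 1) - w i) (x (m + 4) - x m) = 0 := by
      have : x (m + 4) - x m = (x (m + 4) - w i) - (x m - w i) := by abel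
      rw [this, cross_sub_right, l1, l2, sub_zero]
    have s2 : cross (w (i + 1 + 1) - w (i + 1)) (x (m + 4) - x m) = 0 := by
      have e : cross (-(w (i + 1 + 1) - w (i + 1))) (x (m + 4) - x (m + 2)) =
          - cross (w (i + 1 + 1) - w (i + 1)) (x (m + 4) - x (m + 2)) := by simp [cross]; ring
      rw [e] at c2
      have : x (m + 4) - x m = (x (m + 4) - x (m + 2)) + (x (m + 2) - x m) := by abel
      rw [this, cross_add_right, c1]
      linarith
    have hd : w (i + 1) - w i ≠ 0 := fun h => hw.side_ne i (sub_eq_zero.1 h).symm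
    obtain ⟨c, hc⟩ := exists_smul_of_cross hd s1
    rw [hc, cross_smul_right, cross_comm] at s2
    have h5 := hadj i
    have hc0 : c = 0 := by
      rcases mul_eq_zero.1 s2 with h | h
      · exact h
      · linarith
    rw [hc0, zero_smul, sub_eq_zero] at hc
    exact hc
  refine ⟨0, 4, by norm_num, ?_, ?_⟩
  · have := hfour 0
    rw [zero_add] at this
    exact this.symm
  · have := hfour 1
    rw [show (1 : ℤ) + 4 = 4 + 1 by ring] at this
    exact this.symm

/-- (c) quadrilaterals with at most three side directions -/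
theorem ap_quad (v : ZMod 4 → ℝ × ℝ) (hv : IsConvexPolygon v) (hd : AtMostThreeDirections v) : AP v := by
  obtain ⟨d, hd⟩ := hd
  choose k hk0 hk using hd
  have adj : ∀ i : ZMod 4, k i ≠ k (i + 1) := by
    intro i h
    have h1 := hk (i + 1)
    rw [← h, show i + 1 + 1 = i + 2 by ring] at h1
    exact not_par_adj hv hv.two_ne hv.one_ne (hk0 i) (hk i) h1
  have hcomb : ∀ a0 a1 a2 a3 : Fin 3, a0 ≠ a1 → a1 ≠ a2 → a2 ≠ a3 → a3 ≠ a0 → (a0 = a2 ∨ a1 = a3) := by
    decide
  have hex : ∃ i : ZMod 4, k i = k (i + 2) := by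
    rcases hcomb (k 0) (k 1) (k 2) (k 3) (adj 0) (adj 1) (adj 2) (adj 3) with h | h
    · exact ⟨0, h⟩
    · exact ⟨1, h⟩
  obtain ⟨i, hi⟩ := hex
  have hj := hk (i + 2)
  rw [← hi] at hj
  have hne : i + 2 ≠ i := by
    intro h; exact hv.two_ne (by simpa using h)
  obtain ⟨lam, hlam, hl⟩ := antipar_of_par hv (hk0 i) (hk i) hj hne
  -- sides `i` and `i + 2` are parallel
  have c : ∀ i : ZMod 4, 0 + (i + 3) = i + 3 ∧ 1 + (i + 3) = i ∧ 2 + (i + 3) = i + 1 ∧ 3 + (i + 3) = i + 2 ∧
      i + 2 + 1 = i + 3 ∧ 0 + (i + 1) = i + 1 ∧ 1 + (i + 1) = i + 2 ∧ 2 + (i + 1) = i + 3 ∧ 3 + (i + 1) = i := by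
    decide
  obtain ⟨c1, c2, c3, c4, c5, c6, c7, c8, c9⟩ := c i
  rw [c5] at hl
  rcases lt_trichotomy lam 1 with h | h | h
  · rw [← ap_shift v (i + 1)]
    refine ap_trap0 (hv.shift (i + 1)) hlam h ?_
    show v (2 + (i + 1)) - v (1 + (i + 1)) = lam • (v (3 + (i + 1)) - v (0 + (i + 1)))
    rw [c6, c7, c8, c9, hl]; module
  · rw [← ap_shift v (i + 1)]
    refine ap_parallelogram (hv.shift (i + 1)) ?_
    show v (2 + (i + 1)) - v (1 + (i + 1)) = v (3 + (i + 1)) - v (0 + (i + 1))
    rw [c6, c7, c8, c9, hl, h]; module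
  · rw [← ap_shift v (i + 3)]
    refine ap_trap0 (hv.shift (i + 3)) (inv_pos.2 hlam) (inv_lt_one_of_one_lt₀ h) ?_
    show v (2 + (i + 3)) - v (1 + (i + 3)) = lam⁻¹ • (v (3 + (i + 3)) - v (0 + (i + 3)))
    rw [c1, c2, c3, c4]
    have : v (i + 2) - v (i + 3) = lam • (v (i + 1) - v i) := by
      have : v (i + 2) - v (i + 3) = -(v (i + 3) - v (i + 2)) := by abel
      rw [this, hl]; simp
    rw [this, smul_smul, inv_mul_cancel₀ hlam.ne', one_smul]

end SympB
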